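import Pool.Agent.Q299.PL.GN

/-!
# PL job BL: from the lower bound for words to the lower bound for block vectors
-/

set_option autoImplicit false

open scoped BigOperators Matrix
open Finset Pool.Agent.TH235.PP

namespace Pool.Agent.Q299.PL.BL

open Pool.Agent.Q234.PL Pool.Agent.Q299.PL.GN

section A

variable {N m : ℕ}

/-- The restriction to the block. -/
def blk (hm : m ≤ N + 1) (s : Cf N) : Fin m → Fin 2 := fun j => s ⟨j, by omega⟩

theorem blk_paste (hm : m ≤ N + 1) (q : Fin m → Fin 2) (s : Cf N) :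
    blk hm (paste q s) = q := by
  funext j
  simp [blk, paste]

theorem paste_off (q : Fin m → Fin 2) (s : Cf N) (i : Fin (N + 1)) (hi : m ≤ (i : ℕ)) :
    paste q s i = s i := by
  unfold paste
  rw [dif_neg (by omega)]

theorem paste_blk (hm : m ≤ N + 1) (s t : Cf N) (h : ∀ i : Fin (N + 1), m ≤ (i : ℕ) → t i = s i) :
    paste (blk hm t) s = t := by
  funext i
  unfold paste blk
  split_ifs with hi
  · rfl
  · exact (h i (by omega)).symm

theorem sum_agr {M : Type*} [AddCommMonoid M] (hm : m ≤ N + 1) (s : Cf N) (f : Cf N → M) :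
    ∑ t : Cf N, (if ∀ i : Fin (N + 1), m ≤ (i : ℕ) → t i = s i then f t else 0) =
      ∑ q : Fin m → Fin 2, f (paste q s) := by
  rw [← sum_filter]
  refine sum_nbij' (fun t => blk hm t) (fun q => paste q s) ?_ ?_ ?_ ?_ ?_
  · intro t _; exact mem_univ _
  · intro q _
    rw [mem_filter]
    exact ⟨mem_univ _, fun i hi => paste_off q s i hi⟩
  · intro t ht
    exact paste_blk hm s t (mem_filter.1 ht).2
  · intro q _
    exact blk_paste hm q s
  · intro t ht
    show f t = f (paste (blk hm t) s)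
    rw [paste_blk hm s t (mem_filter.1 ht).2]

/-- `W ⊗ 1`. -/
noncomputable def iota (hm : m ≤ N + 1) (W : Matrix (Fin m → Fin 2) (Fin m → Fin 2) ℂ) :
    Matrix (Cf N) (Cf N) ℂ := fun s t =>
  if ∀ i : Fin (N + 1), m ≤ (i : ℕ) → t i = s i then W (blk hm s) (blk hm t) else 0

theorem iota_apply (hm : m ≤ N + 1) (W : Matrix (Fin m → Fin 2) (Fin m → Fin 2) ℂ)
    (s t : Cf N) : iota hm W s t =
      if ∀ i : Fin (N + 1), m ≤ (i : ℕ) → t i = s i then W (blk hm s) (blk hm t) else 0 := rfl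

theorem iota_mulVec (hm : m ≤ N + 1) (W : Matrix (Fin m → Fin 2) (Fin m → Fin 2) ℂ)
    (φ : Cf N → ℂ) (s : Cf N) :
    (iota hm W *ᵥ φ) s = ∑ q, W (blk hm s) q * φ (paste q s) := by
  have h := sum_agr hm s (fun t => W (blk hm s) (blk hm t) * φ t)
  simp only [blk_paste] at h
  rw [← h]
  unfold Matrix.mulVec dotProduct
  refine sum_congr rfl fun t _ => ?_
  show iota hm W s t * φ t = _
  rw [iota_apply]
  by_cases hh : ∀ i : Fin (N + 1), m ≤ (i : ℕ) → t i = s i
  · rw [if_pos hh, if_pos hh]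
  · rw [if_neg hh, if_neg hh, zero_mul]

theorem iota_mul (hm : m ≤ N + 1) (W W' : Matrix (Fin m → Fin 2) (Fin m → Fin 2) ℂ) :
    iota hm W * iota hm W' = iota hm (W * W') := by
  ext s u
  have h := sum_agr hm s (fun t => W (blk hm s) (blk hm t) * iota hm W' t u)
  simp only [blk_paste] at h
  have h1 : (iota hm W * iota hm W') s u =
      ∑ q, W (blk hm s) q * iota hm W' (paste q s) u := by
    rw [← h, Matrix.mul_apply]
    refine sum_congr rfl fun t _ => ?_
    unfold iota
    by_cases hh : ∀ i : Fin (N + 1), m ≤ (i : ℕ) → t i = s i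
    · rw [if_pos hh, if_pos hh]
    · rw [if_neg hh, if_neg hh, zero_mul]
  rw [h1]
  unfold iota
  simp only [blk_paste]
  by_cases hu : ∀ i : Fin (N + 1), m ≤ (i : ℕ) → u i = s i
  · rw [if_pos hu, Matrix.mul_apply]
    refine sum_congr rfl fun q _ => ?_
    rw [if_pos (fun i hi => by rw [paste_off q s i hi]; exact hu i hi)]
  · rw [if_neg hu]
    refine sum_eq_zero fun q _ => ?_
    rw [if_neg, mul_zero]
    intro h2
    exact hu fun i hi => by rw [h2 i hi, paste_off q s i hi]

theorem iota_smul (hm : m ≤ N + 1) (a : ℂ) (W : Matrix (Fin m → Fin 2) (Fin m → Fin 2) ℂ) :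
    iota hm (a • W) = a • iota hm W := by
  ext s t
  simp only [iota, Matrix.smul_apply]
  split_ifs <;> simp

theorem iota_sum {ι : Type*} (hm : m ≤ N + 1) (S : Finset ι)
    (W : ι → Matrix (Fin m → Fin 2) (Fin m → Fin 2) ℂ) :
    iota hm (∑ i ∈ S, W i) = ∑ i ∈ S, iota hm (W i) := by
  ext s t
  rw [Matrix.sum_apply]
  simp only [iota]
  split_ifs
  · rw [Matrix.sum_apply]
  · simp

theorem ext_blk (hm : m ≤ N + 1) (s t : Cf N) (h1 : ∀ i : Fin (N + 1), m ≤ (i : ℕ) → t i = s i)
    (h2 : blk hm s = blk hm t) : s = t := by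
  funext i
  by_cases hi : (i : ℕ) < m
  · exact congrFun h2 ⟨i, hi⟩
  · exact (h1 i (by omega)).symm

theorem iota_diag (hm : m ≤ N + 1) (f : (Fin m → Fin 2) → ℂ) :
    iota hm (Matrix.diagonal f) = Matrix.diagonal fun s => f (blk hm s) := by
  ext s t
  unfold iota
  by_cases hst : s = t
  · subst hst
    rw [if_pos (fun _ _ => rfl), Matrix.diagonal_apply_eq, Matrix.diagonal_apply_eq]
  · rw [Matrix.diagonal_apply_ne _ hst]
    split_ifs with h
    · exact Matrix.diagonal_apply_ne _ fun h2 => hst (ext_blk hm s t h h2)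
    · rfl

theorem iota_one (hm : m ≤ N + 1) :
    iota (N := N) hm (1 : Matrix (Fin m → Fin 2) (Fin m → Fin 2) ℂ) = 1 := by
  rw [← Matrix.diagonal_one, iota_diag, ← Matrix.diagonal_one]

theorem fin2_add (a : Fin 2) : a + 1 + 1 = a := by
  fin_cases a <;> rfl

theorem flip_flip {ι : Type} [DecidableEq ι] (j : ι) (s : ι → Fin 2) :
    Pool.Agent.Q234.PL.flip j (Pool.Agent.Q234.PL.flip j s) = s := by
  funext i
  unfold Pool.Agent.Q234.PL.flip
  by_cases h : i = j
  · subst h
    simp [fin2_add]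
  · simp [h]

/-- The spin flip on the block. -/
def Xs (j : Fin m) : Matrix (Fin m → Fin 2) (Fin m → Fin 2) ℂ := fun a b =>
  if b = Pool.Agent.Q234.PL.flip j a then 1 else 0

theorem Xs_uni (j : Fin m) : (Xs j)ᴴ * Xs j = 1 := by
  have h1 : (Xs j)ᴴ = Xs j := by
    ext a b
    simp only [Matrix.conjTranspose_apply, Xs]
    by_cases h : a = Pool.Agent.Q234.PL.flip j b
    · rw [if_pos h, if_pos (by rw [h, flip_flip])]
      simp
    · rw [if_neg h, if_neg (fun h2 => h (by rw [h2, flip_flip]))]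
      simp
  rw [h1]
  ext a b
  rw [Matrix.mul_apply]
  simp only [Xs]
  rw [sum_eq_single (Pool.Agent.Q234.PL.flip j a)]
  · rw [if_pos rfl, flip_flip, one_mul, Matrix.one_apply]
    by_cases h : b = a
    · rw [if_pos h, if_pos h.symm]
    · rw [if_neg h, if_neg (fun h2 => h h2.symm)]
  · intro c _ hc
    rw [if_neg hc, zero_mul]
  · simp

theorem iota_Xs (hm : m ≤ N + 1) (j : Fin m) : iota hm (Xs j) = Xo (⟨j, by omega⟩ : Fin (N + 1)) := by
  ext s t
  unfold iota Xo Xs
  have key : ∀ s : Cf N, blk hm (Pool.Agent.Q234.PL.flip (⟨j, by omega⟩ : Fin (N + 1)) s) = Pool.Agent.Q234.PL.flip j (blk hm s) := by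
    intro s
    funext i
    unfold blk Pool.Agent.Q234.PL.flip
    by_cases h : i = j
    · subst h; simp
    · have h' : (⟨i, by omega⟩ : Fin (N + 1)) ≠ ⟨j, by omega⟩ := by
        intro h2
        apply h
        have := congrArg Fin.val h2
        exact Fin.ext this
      rw [Function.update_of_ne h', Function.update_of_ne h]
  by_cases h : t = Pool.Agent.Q234.PL.flip (⟨j, by omega⟩ : Fin (N + 1)) s
  · rw [if_pos h]
    have h1 : ∀ i : Fin (N + 1), m ≤ (i : ℕ) → t i = s i := by
      intro i hi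
      rw [h]
      unfold Pool.Agent.Q234.PL.flip
      rw [Function.update_of_ne]
      intro h2
      have := congrArg Fin.val h2
      simp at this
      have := j.2
      omega
    rw [if_pos h1, if_pos (by rw [h, key])]
  · rw [if_neg h]
    split_ifs with h1 h2
    · exfalso
      apply h
      refine (ext_blk hm _ _ ?_ ?_).symm
      · intro i hi
        unfold Pool.Agent.Q234.PL.flip
        rw [Function.update_of_ne, h1 i hi]
        intro h3
        have := congrArg Fin.val h3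
        simp at this
        have := j.2
        omega
      · rw [key, h2]
    · rfl
    · rfl

/-- The operators `ι W` with `W` unitary. -/
def IsU (hm : m ≤ N + 1) (M : Matrix (Cf N) (Cf N) ℂ) : Prop :=
  ∃ W : Matrix (Fin m → Fin 2) (Fin m → Fin 2) ℂ, Wᴴ * W = 1 ∧ M = iota hm W

theorem IsU.mul {hm : m ≤ N + 1} {M M' : Matrix (Cf N) (Cf N) ℂ} (h : IsU hm M) (h' : IsU hm M') :
    IsU hm (M * M') := by
  obtain ⟨W, h1, rfl⟩ := h
  obtain ⟨W', h2, rfl⟩ := h'
  refine ⟨W * W', ?_, iota_mul hm W W'⟩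
  rw [Matrix.conjTranspose_mul, mul_assoc, ← mul_assoc Wᴴ, h1, one_mul, h2]

theorem IsU.one (hm : m ≤ N + 1) : IsU (N := N) hm 1 := ⟨1, by simp, (iota_one hm).symm⟩

theorem IsU.diag (hm : m ≤ N + 1) (f : (Fin m → Fin 2) → ℂ) (hf : ∀ a, ‖f a‖ = 1) :
    IsU hm (Matrix.diagonal fun s : Cf N => f (blk hm s)) := by
  refine ⟨Matrix.diagonal f, ?_, (iota_diag hm f).symm⟩
  rw [Matrix.diagonal_conjTranspose, Matrix.diagonal_mul_diagonal, ← Matrix.diagonal_one]
  congr 1
  funext a
  rw [Pi.star_apply, Complex.star_def, Complex.conj_mul', hf]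
  simp

theorem IsU.smul {hm : m ≤ N + 1} {M : Matrix (Cf N) (Cf N) ℂ} (h : IsU hm M) (a : ℂ)
    (ha : ‖a‖ = 1) : IsU hm (a • M) := by
  obtain ⟨W, h1, rfl⟩ := h
  refine ⟨a • W, ?_, (iota_smul hm a W).symm⟩
  rw [Matrix.conjTranspose_smul, Matrix.smul_mul, Matrix.mul_smul, h1, smul_smul,
    Complex.star_def, Complex.conj_mul', ha]
  simp

theorem sgn_norm (a : Fin 2) : ‖sgn a‖ = 1 := by
  unfold sgn
  split_ifs <;> simp

theorem Ao_isU (hm : m ≤ N + 1) (j : Fin m) : IsU hm (Ao (⟨j, by omega⟩ : Fin (N + 1))) := by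
  unfold Ao
  refine IsU.mul ?_ ⟨Xs j, Xs_uni j, (iota_Xs hm j).symm⟩
  have e : (fun s : Cf N => ∏ i ∈ univ.filter (· < (⟨j, by omega⟩ : Fin (N + 1))), sgn (s i)) =
      fun s : Cf N => (fun a : Fin m → Fin 2 => ∏ i ∈ univ.filter (· < j), sgn (a i)) (blk hm s) := by
    funext s
    simp only [blk]
    refine (prod_nbij (fun i : Fin m => (⟨i, by omega⟩ : Fin (N + 1))) ?_ ?_ ?_ ?_).symm
    · intro i hi
      rw [mem_filter] at hi ⊢
      exact ⟨mem_univ _, hi.2⟩
    · intro i _ k _ hik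
      have := congrArg Fin.val hik
      exact Fin.ext this
    · intro i hi
      rw [mem_coe, mem_filter] at hi
      have h2 : (i : ℕ) < j := hi.2
      have := j.2
      refine ⟨⟨i, by omega⟩, ?_, rfl⟩
      rw [mem_coe, mem_filter]
      exact ⟨mem_univ _, h2⟩
    · intro i _
      rfl
  rw [e]
  refine IsU.diag hm (fun a : Fin m → Fin 2 => ∏ i ∈ univ.filter (· < j), sgn (a i)) fun a => ?_
  rw [norm_prod]
  exact prod_eq_one fun i _ => sgn_norm _

theorem Bo_isU (hm : m ≤ N + 1) (j : Fin m) : IsU hm (Bo (⟨j, by omega⟩ : Fin (N + 1))) := by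
  unfold Bo
  refine IsU.smul (IsU.mul (Ao_isU hm j) ?_) _ (by simp)
  exact IsU.diag hm (fun a => sgn (a j)) fun a => sgn_norm _

theorem word_isU (hm : m ≤ N + 1) {K : ℕ} (γ : Fin K → Matrix (Cf N) (Cf N) ℂ)
    (hγ : ∀ k, IsU hm (γ k)) (s : Fin K → Bool) : IsU hm (word γ s) := by
  unfold word
  have : ∀ l : List (Matrix (Cf N) (Cf N) ℂ), (∀ M ∈ l, IsU hm M) → IsU hm l.prod := by
    intro l
    induction l with
    | nil => intro _; simpa using IsU.one hm
    | cons a l ih =>
      intro h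
      rw [List.prod_cons]
      exact (h a (by simp)).mul (ih fun M hM => h M (by simp [hM]))
  refine this _ fun M hM => ?_
  rw [List.mem_ofFn] at hM
  obtain ⟨k, rfl⟩ := hM
  split_ifs
  · exact hγ k
  · exact IsU.one hm

theorem block_sum (hm : m ≤ N + 1) (f : Cf N → ℝ) (hf : ∀ (p : Fin m → Fin 2) (t : Cf N),
    f (paste p t) = f t) (p₀ : Fin m → Fin 2) :
    ∑ t : Cf N, f t = 2 ^ m * ∑ t : Cf N, if blk hm t = p₀ then f t else 0 := by
  have h1 : ∀ p : Fin m → Fin 2, (∑ t : Cf N, if blk hm t = p then f t else 0) =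
      ∑ t : Cf N, if blk hm t = p₀ then f t else 0 := by
    intro p
    rw [← sum_filter, ← sum_filter]
    refine sum_nbij' (fun t => paste p₀ t) (fun t => paste p t) ?_ ?_ ?_ ?_ ?_
    · intro t _
      rw [mem_filter]
      exact ⟨mem_univ _, blk_paste hm _ _⟩
    · intro t _
      rw [mem_filter]
      exact ⟨mem_univ _, blk_paste hm _ _⟩
    · intro t ht
      have := (mem_filter.1 ht).2
      funext i
      unfold paste
      split_ifs with hi
      · rw [← this]; rfl
      · rfl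
    · intro t ht
      have := (mem_filter.1 ht).2
      funext i
      unfold paste
      split_ifs with hi
      · rw [← this]; rfl
      · rfl
    · intro t _
      exact (hf _ _).symm
  have h2 : ∑ t : Cf N, f t = ∑ p : Fin m → Fin 2, ∑ t : Cf N, if blk hm t = p then f t else 0 := by
    rw [sum_comm]
    refine sum_congr rfl fun t _ => ?_
    rw [sum_ite_eq]
    simp
  rw [h2]
  simp only [h1]
  rw [sum_const, card_univ, nsmul_eq_mul]
  simp

end A

theorem main : Block := by
  intro N m γ Ψ G hm hγ hG hc v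
  have hU : ∀ k : Fin (2 * m), IsU hm (γ k) := by
    intro k
    rcases Nat.even_or_odd' (k : ℕ) with ⟨j, hj | hj⟩
    · have hjm : j < m := by have := k.2; omega
      have := (hγ ⟨j, hjm⟩).1
      have e : k = ⟨2 * ((⟨j, hjm⟩ : Fin m) : ℕ), by simp; omega⟩ := Fin.ext hj
      rw [e, this]
      exact Ao_isU hm ⟨j, hjm⟩
    · have hjm : j < m := by have := k.2; omega
      have := (hγ ⟨j, hjm⟩).2
      have e : k = ⟨2 * ((⟨j, hjm⟩ : Fin m) : ℕ) + 1, by simp; omega⟩ := Fin.ext hj
      rw [e, this]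
      exact Bo_isU hm ⟨j, hjm⟩
  choose w hw1 hw2 using fun s : Fin (2 * m) → Bool => word_isU hm γ hU s
  -- the linear map
  let Θ : ((Fin (2 * m) → Bool) → ℂ) →ₗ[ℂ] Matrix (Fin m → Fin 2) (Fin m → Fin 2) ℂ :=
    { toFun := fun c => ∑ s, c s • w s
      map_add' := fun c c' => by
        simp only [Pi.add_apply, add_smul]
        exact sum_add_distrib
      map_smul' := fun a c => by
        simp only [Pi.smul_apply, smul_eq_mul, RingHom.id_apply, smul_sum, smul_smul] }
  have hΘι : ∀ c, (∑ s, c s • word γ s) = iota hm (Θ c) := by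
    intro c
    show _ = iota hm (∑ s, c s • w s)
    rw [iota_sum]
    refine sum_congr rfl fun s _ => ?_
    rw [iota_smul, ← hw2]
  have hinj : Function.Injective Θ := by
    rw [← LinearMap.ker_eq_bot, LinearMap.ker_eq_bot']
    intro c hc0
    have h1 := hc c
    rw [hΘι, hc0] at h1
    have h2 : iota (N := N) hm (0 : Matrix (Fin m → Fin 2) (Fin m → Fin 2) ℂ) = 0 := by
      ext s t
      simp [iota]
    rw [h2, Matrix.zero_mulVec] at h1
    have h3 : normSq (0 : Cf N → ℂ) = 0 := by simp [normSq]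
    rw [h3, mul_zero] at h1
    have h4 := (sum_eq_zero_iff_of_nonneg fun s _ => sq_nonneg ‖c s‖).1
      (le_antisymm h1 (sum_nonneg fun s _ => sq_nonneg _))
    funext s
    have := h4 s (mem_univ _)
    simpa using this
  have hsurj : Function.Surjective Θ := by
    refine (LinearMap.injective_iff_surjective_of_finrank_eq_finrank ?_).1 hinj
    rw [Module.finrank_fintype_fun_eq_card, Module.finrank_matrix]
    simp
    rw [pow_mul, ← pow_two, ← pow_mul, ← pow_mul, mul_comm]
  set p₀ : Fin m → Fin 2 := fun _ => 0 with hp₀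
  obtain ⟨c, hcW⟩ := hsurj (Matrix.of fun a b => if a = p₀ then v b else 0)
  have hcc := hc c
  rw [hΘι, hcW] at hcc
  -- the value of the form
  have hval : 2 ^ m * normSq (iota hm (Matrix.of fun a b => if a = p₀ then v b else 0) *ᵥ Ψ) =
      ∑ t : Cf N, ‖∑ p, v p * Ψ (paste p t)‖ ^ 2 := by
    rw [block_sum hm (fun t => ‖∑ p, v p * Ψ (paste p t)‖ ^ 2) (fun p t => by
      have : ∀ q : Fin m → Fin 2, paste q (paste p t) = paste q t := by
        intro q
        funext i
        unfold paste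
        split_ifs <;> rfl
      simp only [this]) p₀]
    congr 1
    unfold normSq
    refine sum_congr rfl fun t _ => ?_
    rw [iota_mulVec]
    by_cases h : blk hm t = p₀
    · simp [h]
    · simp [h]
  -- the norm
  have hnorm : ∑ p, ‖v p‖ ^ 2 ≤ 4 ^ m * ∑ s, ‖c s‖ ^ 2 := by
    set vb : (Fin m → Fin 2) → ℂ := fun q => (starRingEnd ℂ) (v q) with hvb
    have hvb2 : normSq vb = ∑ p, ‖v p‖ ^ 2 := by
      unfold normSq
      simp [hvb]
    set V := ∑ p, ‖v p‖ ^ 2 with hV
    have hV0 : 0 ≤ V := sum_nonneg fun _ _ => sq_nonneg _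
    have e1 : ((V : ℝ) : ℂ) = ((Θ c) *ᵥ vb) p₀ := by
      rw [hcW]
      unfold Matrix.mulVec dotProduct
      simp only [Matrix.of_apply, if_true]
      rw [hV]
      push_cast
      refine sum_congr rfl fun q _ => ?_
      rw [hvb]
      simp only
      rw [Complex.mul_conj']
    have e2 : ‖((Θ c) *ᵥ vb) p₀‖ ≤ (∑ s, ‖c s‖) * Real.sqrt V := by
      have e3 : ((Θ c) *ᵥ vb) p₀ = ∑ s, c s * (w s *ᵥ vb) p₀ := by
        show ((∑ s, c s • w s) *ᵥ vb) p₀ = _
        rw [Matrix.sum_mulVec, Finset.sum_apply]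
        refine sum_congr rfl fun s _ => ?_
        rw [Matrix.smul_mulVec, Pi.smul_apply, smul_eq_mul]
      rw [e3, sum_mul]
      refine (norm_sum_le _ _).trans (sum_le_sum fun s _ => ?_)
      rw [norm_mul]
      refine mul_le_mul_of_nonneg_left ?_ (norm_nonneg _)
      refine Real.le_sqrt_of_sq_le ?_
      have e4 : normSq (w s *ᵥ vb) = V := by
        have h : ((normSq (w s *ᵥ vb) : ℝ) : ℂ) = ((normSq vb : ℝ) : ℂ) := by
          rw [normSq_dot, normSq_dot, Matrix.star_mulVec, ← Matrix.dotProduct_mulVec,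
            Matrix.mulVec_mulVec, hw1, Matrix.one_mulVec]
        rw [← hvb2]
        exact_mod_cast h
      rw [← e4]
      exact single_le_sum (f := fun q => ‖(w s *ᵥ vb) q‖ ^ 2) (fun _ _ => sq_nonneg _) (mem_univ p₀)
    rw [← e1, Complex.norm_real, Real.norm_eq_abs, abs_of_nonneg hV0] at e2
    have e5 : Real.sqrt V ≤ ∑ s, ‖c s‖ := by
      by_cases h0 : V = 0
      · rw [h0, Real.sqrt_zero]
        exact sum_nonneg fun _ _ => norm_nonneg _
      · have hpos : 0 < Real.sqrt V := Real.sqrt_pos.mpr (lt_of_le_of_ne hV0 (Ne.symm h0))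
        have : Real.sqrt V * Real.sqrt V ≤ (∑ s, ‖c s‖) * Real.sqrt V := by
          rw [Real.mul_self_sqrt hV0]; exact e2
        exact le_of_mul_le_mul_right this hpos
    have e6 : V ≤ (∑ s, ‖c s‖) ^ 2 := by
      have := pow_le_pow_left₀ (Real.sqrt_nonneg V) e5 2
      rwa [Real.sq_sqrt hV0] at this
    refine e6.trans ?_
    have e7 := sq_sum_le_card_mul_sum_sq (s := (univ : Finset (Fin (2 * m) → Bool)))
      (f := fun s => ‖c s‖)
    refine e7.trans (le_of_eq ?_)
    congr 1
    simp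
    rw [pow_mul]
    norm_num
  calc ∑ p, ‖v p‖ ^ 2 ≤ 4 ^ m * ∑ s, ‖c s‖ ^ 2 := hnorm
    _ ≤ 4 ^ m * (G * normSq (iota hm (Matrix.of fun a b => if a = p₀ then v b else 0) *ᵥ Ψ)) :=
        mul_le_mul_of_nonneg_left hcc (by positivity)
    _ = 2 ^ m * G * ∑ t : Cf N, ‖∑ p, v p * Ψ (paste p t)‖ ^ 2 := by
        rw [← hval]
        have : (4 : ℝ) ^ m = 2 ^ m * 2 ^ m := by rw [← mul_pow]; norm_num
        rw [this]
        ring

end Pool.Agent.Q299.PL.BL
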