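import Pool.Agent.Q234.PL.Stm

/-!
# PL job GN: lower bound for combinations of Majorana words on a vacuum vector
-/

set_option autoImplicit false

open scoped BigOperators Matrix
open Finset Pool.Agent.TH235.PP

namespace Pool.Agent.Q299.PL.GN

open Pool.Agent.Q234.PL

theorem normSq_eq {S : Type} [Fintype S] (ψ : S → ℂ) :
    normSq ψ = ‖(WithLp.toLp 2 ψ : EuclideanSpace ℂ S)‖ ^ 2 := by
  rw [EuclideanSpace.norm_sq_eq]
  rfl

theorem normSq_nonneg {S : Type} [Fintype S] (ψ : S → ℂ) : 0 ≤ normSq ψ :=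
  sum_nonneg fun _ _ => sq_nonneg _

theorem normSq_dot {S : Type} [Fintype S] (ψ : S → ℂ) : ((normSq ψ : ℝ) : ℂ) = star ψ ⬝ᵥ ψ := by
  unfold normSq dotProduct
  push_cast
  refine sum_congr rfl fun s _ => ?_
  rw [Pi.star_apply, Complex.star_def, Complex.conj_mul']

theorem normSq_smul {S : Type} [Fintype S] (a : ℂ) (ψ : S → ℂ) :
    normSq (a • ψ) = ‖a‖ ^ 2 * normSq ψ := by
  unfold normSq
  rw [mul_sum]
  refine sum_congr rfl fun s _ => ?_
  rw [Pi.smul_apply, smul_eq_mul, norm_mul, mul_pow]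

theorem normSq_unitary {S : Type} [Fintype S] [DecidableEq S] (U : Matrix S S ℂ)
    (h1 : U.IsHermitian) (h2 : U * U = 1) (ψ : S → ℂ) : normSq (U *ᵥ ψ) = normSq ψ := by
  have h : ((normSq (U *ᵥ ψ) : ℝ) : ℂ) = ((normSq ψ : ℝ) : ℂ) := by
    rw [normSq_dot, normSq_dot, Matrix.star_mulVec, ← Matrix.dotProduct_mulVec, h1.eq,
      Matrix.mulVec_mulVec, h2, Matrix.one_mulVec]
  exact_mod_cast h

theorem normSq_sub {S : Type} [Fintype S] (φ u : S → ℂ) (κ : ℝ) (hκ : 0 ≤ κ)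
    (h : normSq u ≤ κ ^ 2 * normSq φ) : normSq (φ - u) ≤ (1 + κ) ^ 2 * normSq φ := by
  rw [normSq_eq, normSq_eq] at *
  rw [← mul_pow] at h
  have h1 : ‖(WithLp.toLp 2 u : EuclideanSpace ℂ S)‖ ≤
      κ * ‖(WithLp.toLp 2 φ : EuclideanSpace ℂ S)‖ :=
    le_of_sq_le_sq h (by positivity)
  have h2 : ‖(WithLp.toLp 2 (φ - u) : EuclideanSpace ℂ S)‖ ≤
      (1 + κ) * ‖(WithLp.toLp 2 φ : EuclideanSpace ℂ S)‖ := by
    rw [WithLp.toLp_sub]
    refine (norm_sub_le _ _).trans ?_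
    linarith
  rw [← mul_pow]
  exact pow_le_pow_left₀ (norm_nonneg _) h2 2

/-- The sign of a word. -/
noncomputable def sg {K : ℕ} (s : Fin K → Bool) : ℂ := ∏ k, if s k then -1 else 1

theorem sg_sq {K : ℕ} (s : Fin K → Bool) : sg s * sg s = 1 := by
  unfold sg
  rw [← prod_mul_distrib]
  refine prod_eq_one fun k _ => ?_
  split_ifs <;> norm_num

theorem sg_norm {K : ℕ} (s : Fin K → Bool) : ‖sg s‖ = 1 := by
  have h : ‖sg s‖ * ‖sg s‖ = 1 := by rw [← norm_mul, sg_sq, norm_one]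
  have h0 := norm_nonneg (sg s)
  nlinarith

section W

variable {n : Type} [Fintype n] [DecidableEq n]

theorem word_succ {K : ℕ} (γ : Fin (K + 1) → Matrix n n ℂ) (s : Fin K → Bool) (x : Bool) :
    word γ (Fin.snoc s x : Fin (K + 1) → Bool) =
      word (fun k => γ k.castSucc) s * (if x then γ (Fin.last K) else 1) := by
  unfold word
  rw [List.ofFn_succ', List.concat_eq_append, List.prod_append]
  simp

theorem sg_succ {K : ℕ} (s : Fin K → Bool) (x : Bool) :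
    sg (Fin.snoc s x : Fin (K + 1) → Bool) = sg s * (if x then -1 else 1) := by
  unfold sg
  rw [Fin.prod_univ_castSucc]
  simp

theorem sum_snoc {M : Type*} [AddCommMonoid M] {K : ℕ} (f : (Fin (K + 1) → Bool) → M) :
    ∑ s, f s = ∑ s : Fin K → Bool, f (Fin.snoc s false : Fin (K + 1) → Bool) +
      ∑ s : Fin K → Bool, f (Fin.snoc s true : Fin (K + 1) → Bool) := by
  rw [← (Fin.snocEquiv fun _ : Fin (K + 1) => Bool).sum_comp, Fintype.sum_prod_type,
    Fintype.sum_bool, add_comm]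
  rfl

theorem anti_word {K : ℕ} (γ : Fin K → Matrix n n ℂ) (b : Matrix n n ℂ)
    (h : ∀ j, b * γ j = -(γ j * b)) (s : Fin K → Bool) :
    b * word γ s = sg s • (word γ s * b) := by
  induction K with
  | zero => simp [word, sg]
  | succ K ih =>
    obtain ⟨s', x, rfl⟩ : ∃ (s' : Fin K → Bool) (x : Bool), s = (Fin.snoc s' x : Fin (K + 1) → Bool) :=
      ⟨fun k => s k.castSucc, s (Fin.last K), (Fin.snoc_init_self s).symm⟩
    rw [word_succ, sg_succ, ← mul_assoc, ih (fun k => γ k.castSucc) (fun j => h _) s']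
    cases x
    · simp
    · simp only [if_true, Matrix.smul_mul, Matrix.mul_assoc, h, Matrix.mul_neg]
      rw [smul_neg, ← neg_smul]
      congr 1
      ring

theorem main_aux (Ψ : n → ℂ) (κ : ℝ) (hκ : 0 ≤ κ) (hΨ : normSq Ψ = 1) (K : ℕ) :
    ∀ γ : Fin K → Matrix n n ℂ, IsMaj γ →
    (∀ k : Fin K, ∃ (b : Matrix n n ℂ) (ζ : ℂ), b *ᵥ Ψ = 0 ∧ ‖ζ‖ = 1 ∧
      (∀ j < k, b * γ j = -(γ j * b)) ∧
      b * γ k + γ k * b = (2 * ζ) • (1 : Matrix n n ℂ) ∧
      ∀ φ, normSq (b *ᵥ φ) ≤ (2 * κ) ^ 2 * normSq φ) →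
    ∀ c : (Fin K → Bool) → ℂ,
      ∑ s, ‖c s‖ ^ 2 ≤ (1 + 2 * κ) ^ (2 * K) * normSq ((∑ s, c s • word γ s) *ᵥ Ψ) := by
  induction K with
  | zero =>
    intro γ _ _ c
    rw [Fintype.sum_unique, Fintype.sum_unique]
    have : ∀ s : Fin 0 → Bool, word γ s = 1 := fun s => by simp [word]
    rw [this, Matrix.smul_mulVec, Matrix.one_mulVec, normSq_smul, hΨ]
    simp
  | succ K ih =>
    intro γ hγ hb c
    obtain ⟨hγ1, hγ2, hγ3⟩ := hγ
    set γ' : Fin K → Matrix n n ℂ := fun k => γ k.castSucc with hγ'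
    have hmaj : IsMaj γ' := ⟨fun i => hγ1 _, fun i => hγ2 _, fun i j hij => hγ3 _ _ (by
      intro h
      exact hij (Fin.castSucc_injective _ h))⟩
    have hb' : ∀ k : Fin K, ∃ (b : Matrix n n ℂ) (ζ : ℂ), b *ᵥ Ψ = 0 ∧ ‖ζ‖ = 1 ∧
        (∀ j < k, b * γ' j = -(γ' j * b)) ∧
        b * γ' k + γ' k * b = (2 * ζ) • (1 : Matrix n n ℂ) ∧
        ∀ φ, normSq (b *ᵥ φ) ≤ (2 * κ) ^ 2 * normSq φ := by
      intro k
      obtain ⟨b, ζ, h1, h2, h3, h4, h5⟩ := hb k.castSucc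
      exact ⟨b, ζ, h1, h2, fun j hj => h3 _ (Fin.castSucc_lt_castSucc_iff.mpr hj), h4, h5⟩
    have IH := ih γ' hmaj hb'
    set g := γ (Fin.last K) with hg
    obtain ⟨b, ζ, h1, h2, h3, h4, h5⟩ := hb (Fin.last K)
    have hbγ : ∀ j : Fin K, b * γ' j = -(γ' j * b) := fun j => h3 _ (Fin.castSucc_lt_last j)
    have hgγ : ∀ j : Fin K, g * γ' j = -(γ' j * g) := fun j =>
      hγ3 _ _ (Fin.castSucc_lt_last j).ne'
    set c0 : (Fin K → Bool) → ℂ := fun s => c (Fin.snoc s false : Fin (K + 1) → Bool) with hc0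
    set c1 : (Fin K → Bool) → ℂ := fun s => c (Fin.snoc s true : Fin (K + 1) → Bool) with hc1
    set O1 := ∑ s, c0 s • word γ' s with hO1
    set O1' := ∑ s, (sg s * c0 s) • word γ' s with hO1'
    set O2 := ∑ s, c1 s • word γ' s with hO2
    set O2' := ∑ s, (sg s * c1 s) • word γ' s with hO2'
    have hO : ∑ s, c s • word γ s = O1 + O2 * g := by
      rw [sum_snoc]
      congr 1
      · refine sum_congr rfl fun s _ => ?_
        rw [word_succ]; simp [hc0, hγ']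
      · rw [hO2, sum_mul]
        refine sum_congr rfl fun s _ => ?_
        rw [word_succ]; simp [hc1, hγ', hg]
    have hb1 : b * O1 = O1' * b := by
      rw [hO1, hO1', mul_sum, sum_mul]
      refine sum_congr rfl fun s _ => ?_
      rw [Matrix.mul_smul, anti_word γ' b hbγ, smul_smul, Matrix.smul_mul, mul_comm (c0 s)]
    have hb2 : b * O2 = O2' * b := by
      rw [hO2, hO2', mul_sum, sum_mul]
      refine sum_congr rfl fun s _ => ?_
      rw [Matrix.mul_smul, anti_word γ' b hbγ, smul_smul, Matrix.smul_mul, mul_comm (c1 s)]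
    have hg2 : g * O2' = O2 * g := by
      rw [hO2, hO2', mul_sum, sum_mul]
      refine sum_congr rfl fun s _ => ?_
      rw [Matrix.mul_smul, anti_word γ' g hgγ, smul_smul, Matrix.smul_mul]
      congr 1
      linear_combination c1 s * sg_sq s
    set φ := (∑ s, c s • word γ s) *ᵥ Ψ with hφ
    have hφ1 : φ = O1 *ᵥ Ψ + g *ᵥ (O2' *ᵥ Ψ) := by
      rw [hφ, hO, Matrix.add_mulVec, Matrix.mulVec_mulVec, hg2]
    have hbφ : b *ᵥ φ = (2 * ζ) • (O2' *ᵥ Ψ) := by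
      rw [hφ, hO, Matrix.mulVec_mulVec, mul_add, ← mul_assoc b O2 g, hb1, hb2, Matrix.add_mulVec,
        ← Matrix.mulVec_mulVec, h1, Matrix.mulVec_zero, zero_add, mul_assoc O2' b g]
      have e : b * g = (2 * ζ) • (1 : Matrix n n ℂ) - g * b := by
        rw [← h4]; abel
      rw [e, mul_sub, Matrix.sub_mulVec, ← mul_assoc, ← Matrix.mulVec_mulVec Ψ (O2' * g) b, h1,
        Matrix.mulVec_zero, sub_zero, Matrix.mul_smul, mul_one, Matrix.smul_mulVec]
    have hN : normSq (O2' *ᵥ Ψ) ≤ κ ^ 2 * normSq φ := by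
      have h6 := h5 φ
      rw [hbφ, normSq_smul, norm_mul, h2, mul_one] at h6
      norm_num at h6
      nlinarith
    have hN2 : normSq (g *ᵥ (O2' *ᵥ Ψ)) ≤ κ ^ 2 * normSq φ := by
      rw [normSq_unitary g (hγ1 _) (hγ2 _)]
      exact hN
    have hN1 : normSq (O1 *ᵥ Ψ) ≤ (1 + κ) ^ 2 * normSq φ := by
      have e : O1 *ᵥ Ψ = φ - g *ᵥ (O2' *ᵥ Ψ) := by rw [hφ1]; abel
      rw [e]
      exact normSq_sub φ _ κ hκ hN2
    have I0 := IH c0
    have I1 := IH (fun s => sg s * c1 s)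
    simp only [norm_mul, sg_norm, one_mul] at I1
    rw [← hO1] at I0
    rw [← hO2'] at I1
    have hP : 0 ≤ (1 + 2 * κ) ^ (2 * K) := by positivity
    have hφ0 := normSq_nonneg φ
    rw [sum_snoc]
    calc (∑ s, ‖c0 s‖ ^ 2) + ∑ s, ‖c1 s‖ ^ 2
        ≤ (1 + 2 * κ) ^ (2 * K) * normSq (O1 *ᵥ Ψ) + (1 + 2 * κ) ^ (2 * K) * normSq (O2' *ᵥ Ψ) :=
          add_le_add I0 I1
      _ ≤ (1 + 2 * κ) ^ (2 * K) * ((1 + κ) ^ 2 * normSq φ) +
          (1 + 2 * κ) ^ (2 * K) * (κ ^ 2 * normSq φ) :=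
          add_le_add (mul_le_mul_of_nonneg_left hN1 hP) (mul_le_mul_of_nonneg_left hN hP)
      _ = (1 + 2 * κ) ^ (2 * K) * (((1 + κ) ^ 2 + κ ^ 2) * normSq φ) := by ring
      _ ≤ (1 + 2 * κ) ^ (2 * K) * ((1 + 2 * κ) ^ 2 * normSq φ) := by
          refine mul_le_mul_of_nonneg_left (mul_le_mul_of_nonneg_right ?_ hφ0) hP
          nlinarith
      _ = (1 + 2 * κ) ^ (2 * (K + 1)) * normSq φ := by ring

end W

theorem main : GNS := by
  intro n _ _ K γ Ψ κ hγ hΨ hκ hb c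
  exact main_aux Ψ κ hκ hΨ K γ hγ hb c

end Pool.Agent.Q299.PL.GN
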