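import Pool.Agent.Q234.PL.Stm

/-!
# PL job HA: the lower bound for the Hankel form
-/

set_option autoImplicit false

open Finset Polynomial MeasureTheory
open scoped Real

namespace Pool.Agent.Q299.PL.HA

open Pool.Agent.Q234.PL

/-- The polynomials with `V j (sin² θ) cos θ = cos ((2 j + 1) θ)`. -/
noncomputable def V : ℕ → Polynomial ℝ
  | 0 => 1
  | 1 => 1 - C 4 * X
  | (j + 2) => (C 2 - C 4 * X) * V (j + 1) - V j

theorem V_succ (j : ℕ) : V (j + 2) = (C 2 - C 4 * X) * V (j + 1) - V j := by rw [V]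

theorem V_eval (j : ℕ) : ∀ θ : ℝ, (V j).eval (Real.sin θ ^ 2) * Real.cos θ =
    Real.cos ((2 * j + 1) * θ) := by
  induction j using Nat.strong_induction_on with
  | _ j ih =>
    intro θ
    match j, ih with
    | 0, _ => simp [V]
    | 1, _ =>
      have h3 : ((2 * ((1 : ℕ) : ℝ) + 1) * θ) = 3 * θ := by push_cast; ring
      rw [h3, Real.cos_three_mul]
      simp only [V, eval_sub, eval_one, eval_mul, eval_C, eval_X]
      have := Real.sin_sq_add_cos_sq θ
      linear_combination (-4 * Real.cos θ) * this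
    | (j + 2), ih =>
      have h1 := ih (j + 1) (by omega) θ
      have h0 := ih j (by omega) θ
      rw [V_succ, eval_sub, eval_mul, sub_mul, mul_assoc, h1, h0]
      simp only [eval_sub, eval_mul, eval_C, eval_X]
      have e1 : (2 * ((j + 2 : ℕ) : ℝ) + 1) * θ = (2 * ((j + 1 : ℕ) : ℝ) + 1) * θ + 2 * θ := by
        push_cast; ring
      have e2 : (2 * (j : ℝ) + 1) * θ = (2 * ((j + 1 : ℕ) : ℝ) + 1) * θ - 2 * θ := by
        push_cast; ring
      rw [e1, e2, Real.cos_add, Real.cos_sub, Real.cos_two_mul]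
      have := Real.sin_sq_add_cos_sq θ
      linear_combination (-4 * Real.cos ((2 * ((j + 1 : ℕ) : ℝ) + 1) * θ)) * this

theorem coeff_step (p r : Polynomial ℝ) (i : ℕ) :
    ((C 2 - C 4 * X) * p - r).coeff i = 2 * p.coeff i - 4 * (X * p).coeff i - r.coeff i := by
  rw [sub_mul, mul_assoc, coeff_sub, coeff_sub, coeff_C_mul, coeff_C_mul]

theorem V_coeff (j : ℕ) : (∀ i, j < i → (V j).coeff i = 0) ∧ (V j).coeff j = (-4) ^ j := by
  induction j using Nat.strong_induction_on with
  | _ j ih =>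
    match j, ih with
    | 0, _ =>
      refine ⟨fun i hi => ?_, ?_⟩
      · simp [V, coeff_one, hi.ne']
      · simp [V]
    | 1, _ =>
      refine ⟨fun i hi => ?_, ?_⟩
      · simp [V, coeff_one, coeff_X, hi.ne]
        omega
      · simp [V, coeff_one]
    | (j + 2), ih =>
      obtain ⟨a1, a2⟩ := ih (j + 1) (by omega)
      obtain ⟨b1, b2⟩ := ih j (by omega)
      refine ⟨fun i hi => ?_, ?_⟩
      · obtain ⟨i, rfl⟩ : ∃ k, i = k + 1 := ⟨i - 1, by omega⟩
        rw [V_succ, coeff_step, coeff_X_mul, a1 _ (by omega), a1 _ (by omega), b1 _ (by omega)]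
        ring
      · rw [V_succ, coeff_step, coeff_X_mul, a1 _ (by omega), a2, b1 _ (by omega)]
        ring

/-- The sum of the absolute values of the first coefficients. -/
noncomputable def nr (K : ℕ) (p : Polynomial ℝ) : ℝ := ∑ i ∈ range K, |p.coeff i|

theorem nr_nonneg (K : ℕ) (p : Polynomial ℝ) : 0 ≤ nr K p := sum_nonneg fun _ _ => abs_nonneg _

theorem nr_X (K : ℕ) (p : Polynomial ℝ) : nr K (X * p) ≤ nr K p := by
  unfold nr
  cases K with
  | zero => simp
  | succ K =>
    have e1 : ∑ i ∈ range (K + 1), |((X : Polynomial ℝ) * p).coeff i| =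
        ∑ i ∈ range K, |p.coeff i| := by
      rw [sum_range_succ']
      simp only [coeff_X_mul, mul_coeff_zero, coeff_X_zero, zero_mul, abs_zero, add_zero]
    have e2 : ∑ i ∈ range (K + 1), |p.coeff i| = ∑ i ∈ range K, |p.coeff i| + |p.coeff K| :=
      sum_range_succ _ _
    rw [e1, e2]
    linarith [abs_nonneg (p.coeff K)]

theorem nr_V (K j : ℕ) : nr K (V j) ≤ 7 ^ j := by
  have h1 : nr K (1 : Polynomial ℝ) ≤ 1 := by
    unfold nr
    cases K with
    | zero => simp
    | succ K =>
      rw [sum_range_succ']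
      simp [coeff_one]
  have hstep : ∀ p r : Polynomial ℝ, nr K ((C 2 - C 4 * X) * p - r) ≤ 6 * nr K p + nr K r := by
    intro p r
    have h2 : nr K ((C 2 - C 4 * X) * p - r) ≤ 2 * nr K p + 4 * nr K (X * p) + nr K r := by
      unfold nr
      rw [mul_sum, mul_sum, ← sum_add_distrib, ← sum_add_distrib]
      refine sum_le_sum fun i _ => ?_
      rw [coeff_step]
      calc |2 * p.coeff i - 4 * (X * p).coeff i - r.coeff i|
          ≤ |2 * p.coeff i - 4 * (X * p).coeff i| + |r.coeff i| := abs_sub _ _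
        _ ≤ |2 * p.coeff i| + |4 * (X * p).coeff i| + |r.coeff i| := by
            linarith [abs_sub (2 * p.coeff i) (4 * (X * p).coeff i)]
        _ = _ := by
            rw [abs_mul, abs_mul, abs_of_pos (by norm_num : (0 : ℝ) < 2),
              abs_of_pos (by norm_num : (0 : ℝ) < 4)]
    linarith [nr_X K p]
  induction j using Nat.strong_induction_on with
  | _ j ih =>
    match j, ih with
    | 0, _ => simpa [V] using h1
    | 1, _ =>
      have e : V 1 = (C 2 - C 4 * X) * 1 - 1 := by
        simp only [V]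
        have : (C 2 : Polynomial ℝ) = 1 + 1 := by
          rw [← C_1, ← C_add]; norm_num
        rw [this]; ring
      rw [e]
      linarith [hstep 1 1]
    | (j + 2), ih =>
      have a := ih (j + 1) (by omega)
      have b := ih j (by omega)
      rw [V_succ]
      have := hstep (V (j + 1)) (V j)
      have hp : (0 : ℝ) < 7 ^ j := by positivity
      rw [pow_succ] at a
      rw [pow_succ, pow_succ]
      nlinarith

theorem expand (m : ℕ) : ∀ q : Polynomial ℝ, (∀ i, m ≤ i → q.coeff i = 0) →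
    ∃ d : ℕ → ℝ, q = ∑ j ∈ range m, C (d j) * V j := by
  induction m with
  | zero =>
    intro q hq
    refine ⟨fun _ => 0, ?_⟩
    ext i
    simp [hq i (Nat.zero_le i)]
  | succ m ih =>
    intro q hq
    obtain ⟨v1, v2⟩ := V_coeff m
    obtain ⟨d, hd⟩ := ih (q - C (q.coeff m / (-4) ^ m) * V m) (by
      intro i hi
      rw [coeff_sub, coeff_C_mul]
      rcases hi.eq_or_lt with h | h
      · subst h
        rw [v2, div_mul_cancel₀ _ (by positivity), sub_self]
      · rw [hq i h, v1 i h]; simp)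
    refine ⟨fun j => if j = m then q.coeff m / (-4) ^ m else d j, ?_⟩
    rw [sum_range_succ]
    simp only [if_true]
    have e : ∑ j ∈ range m, C (if j = m then q.coeff m / (-4) ^ m else d j) * V j =
        ∑ j ∈ range m, C (d j) * V j := by
      refine sum_congr rfl fun j hj => ?_
      rw [if_neg (by simp at hj; omega)]
    rw [e, ← hd]
    ring

theorem cos_int (n : ℤ) (hn : n ≠ 0) : (∫ θ in (0 : ℝ)..π, Real.cos (n * θ)) = 0 := by
  have hn' : (n : ℝ) ≠ 0 := by exact_mod_cast hn
  rw [intervalIntegral.integral_comp_mul_left (fun x => Real.cos x) hn', integral_cos]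
  rw [mul_zero, Real.sin_zero, Real.sin_int_mul_pi]
  simp

theorem ortho (j k : ℕ) : (∫ θ in (0 : ℝ)..π, Real.cos ((2 * j + 1) * θ) * Real.cos ((2 * k + 1) * θ)) =
    if j = k then π / 2 else 0 := by
  have e : ∀ θ : ℝ, Real.cos ((2 * j + 1) * θ) * Real.cos ((2 * k + 1) * θ) =
      (1 / 2) * Real.cos (((2 * (j : ℤ) - 2 * (k : ℤ) : ℤ) : ℝ) * θ) +
      (1 / 2) * Real.cos (((2 * (j : ℤ) + 2 * (k : ℤ) + 2 : ℤ) : ℝ) * θ) := by
    intro θ
    have e1 : ((2 * (j : ℤ) - 2 * (k : ℤ) : ℤ) : ℝ) * θ = (2 * j + 1) * θ - (2 * k + 1) * θ := by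
      push_cast; ring
    have e2 : ((2 * (j : ℤ) + 2 * (k : ℤ) + 2 : ℤ) : ℝ) * θ = (2 * j + 1) * θ + (2 * k + 1) * θ := by
      push_cast; ring
    rw [e1, e2, Real.cos_add, Real.cos_sub]
    ring
  simp only [e]
  have hc : ∀ n : ℤ, IntervalIntegrable (fun θ : ℝ => (1 / 2) * Real.cos ((n : ℝ) * θ)) volume 0 π :=
    fun n => (continuous_const.mul (Real.continuous_cos.comp
      (continuous_const.mul continuous_id))).intervalIntegrable _ _
  rw [intervalIntegral.integral_add (hc _) (hc _), intervalIntegral.integral_const_mul,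
    intervalIntegral.integral_const_mul, cos_int (2 * (j : ℤ) + 2 * (k : ℤ) + 2) (by omega)]
  split_ifs with h
  · subst h
    simp
    ring
  · rw [cos_int _ (by omega)]
    simp

theorem wallis (n : ℕ) : (∫ θ in (0 : ℝ)..π, Real.sin θ ^ (2 * n)) =
    π * (Nat.centralBinom n / 4 ^ n) := by
  rw [integral_sin_pow_even]
  congr 1
  induction n with
  | zero => simp
  | succ n ih =>
    rw [prod_range_succ, ih]
    have h := Nat.succ_mul_centralBinom_succ n
    have h' : ((n : ℝ) + 1) * (Nat.centralBinom (n + 1) : ℝ) = 2 * (2 * n + 1) * Nat.centralBinom n := by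
      exact_mod_cast h
    have hn : (n : ℝ) + 1 ≠ 0 := by positivity
    have h'' : (Nat.centralBinom (n + 1) : ℝ) = 2 * (2 * n + 1) * Nat.centralBinom n / (n + 1) := by
      rw [eq_div_iff hn]; linarith
    rw [h'', pow_succ]
    field_simp
    ring

theorem al_int (n : ℕ) : al (n + 1) =
    π⁻¹ * ∫ θ in (0 : ℝ)..π, Real.sin θ ^ (2 * n) * Real.cos θ ^ 2 := by
  have e : ∀ θ : ℝ, Real.sin θ ^ (2 * n) * Real.cos θ ^ 2 =
      Real.sin θ ^ (2 * n) - Real.sin θ ^ (2 * (n + 1)) := by
    intro θ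
    rw [Real.cos_sq', mul_add 2 n 1, pow_add]
    ring
  have hc : ∀ k : ℕ, IntervalIntegrable (fun θ : ℝ => Real.sin θ ^ k) volume 0 π := fun k =>
    (Real.continuous_sin.pow k).intervalIntegrable _ _
  simp only [e]
  rw [intervalIntegral.integral_sub (hc _) (hc _), wallis, wallis]
  have h := Nat.succ_mul_centralBinom_succ n
  have h' : ((n : ℝ) + 1) * (Nat.centralBinom (n + 1) : ℝ) = 2 * (2 * n + 1) * Nat.centralBinom n := by
    exact_mod_cast h
  have hn : (n : ℝ) + 1 ≠ 0 := by positivity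
  have h'' : (Nat.centralBinom (n + 1) : ℝ) = 2 * (2 * n + 1) * Nat.centralBinom n / (n + 1) := by
    rw [eq_div_iff hn]; linarith
  unfold al
  rw [h'', Nat.add_sub_cancel, pow_succ]
  have hpi : π ≠ 0 := Real.pi_ne_zero
  push_cast
  field_simp
  ring

theorem main : Hankel := by
  intro m z
  set q : Polynomial ℝ := ∑ l : Fin m, C (z l) * X ^ (l : ℕ) with hq
  have hqc : ∀ l : Fin m, q.coeff l = z l := by
    intro l
    rw [hq, finset_sum_coeff]
    simp only [coeff_C_mul, coeff_X_pow]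
    rw [sum_eq_single l]
    · simp
    · intro b _ hb
      rw [if_neg (fun h => hb (Fin.ext h.symm)), mul_zero]
    · simp
  have hq0 : ∀ i, m ≤ i → q.coeff i = 0 := by
    intro i hi
    rw [hq, finset_sum_coeff]
    refine sum_eq_zero fun l _ => ?_
    rw [coeff_C_mul, coeff_X_pow, if_neg (by have := l.2; omega), mul_zero]
  obtain ⟨d, hd⟩ := expand m q hq0
  -- the form as an integral
  have hform : ∑ l : Fin m, ∑ k : Fin m, al (l + k + 1) * z l * z k =
      π⁻¹ * ∫ θ in (0 : ℝ)..π, (q.eval (Real.sin θ ^ 2) * Real.cos θ) ^ 2 := by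
    have e : ∀ θ : ℝ, (q.eval (Real.sin θ ^ 2) * Real.cos θ) ^ 2 =
        ∑ l : Fin m, ∑ k : Fin m, (z l * z k) *
          (Real.sin θ ^ (2 * ((l : ℕ) + k)) * Real.cos θ ^ 2) := by
      intro θ
      have e1 : q.eval (Real.sin θ ^ 2) = ∑ l : Fin m, z l * (Real.sin θ ^ 2) ^ (l : ℕ) := by
        rw [hq, eval_finset_sum]
        simp only [eval_mul, eval_C, eval_pow, eval_X]
      rw [e1, mul_pow, sq (∑ l : Fin m, _), sum_mul_sum, sum_mul]
      refine sum_congr rfl fun l _ => ?_
      rw [sum_mul]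
      refine sum_congr rfl fun k _ => ?_
      rw [← pow_mul, ← pow_mul, mul_add 2, pow_add]
      ring
    simp only [e]
    have hc : ∀ l k : Fin m, IntervalIntegrable (fun θ : ℝ => (z l * z k) *
          (Real.sin θ ^ (2 * ((l : ℕ) + k)) * Real.cos θ ^ 2)) volume 0 π := fun l k => by
      apply Continuous.intervalIntegrable
      fun_prop
    rw [intervalIntegral.integral_finset_sum fun l _ => by
      apply Continuous.intervalIntegrable
      fun_prop]
    rw [mul_sum]
    refine sum_congr rfl fun l _ => ?_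
    rw [intervalIntegral.integral_finset_sum fun k _ => hc l k, mul_sum]
    refine sum_congr rfl fun k _ => ?_
    rw [intervalIntegral.integral_const_mul, al_int]
    ring
  have hval : (∫ θ in (0 : ℝ)..π, (q.eval (Real.sin θ ^ 2) * Real.cos θ) ^ 2) =
      (π / 2) * ∑ j ∈ range m, d j ^ 2 := by
    have e : ∀ θ : ℝ, (q.eval (Real.sin θ ^ 2) * Real.cos θ) ^ 2 =
        ∑ j ∈ range m, ∑ k ∈ range m, (d j * d k) *
          (Real.cos ((2 * j + 1) * θ) * Real.cos ((2 * k + 1) * θ)) := by
      intro θ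
      have e1 : q.eval (Real.sin θ ^ 2) * Real.cos θ =
          ∑ j ∈ range m, d j * Real.cos ((2 * j + 1) * θ) := by
        rw [hd, eval_finset_sum, sum_mul]
        refine sum_congr rfl fun j _ => ?_
        rw [eval_mul, eval_C, mul_assoc, V_eval]
      rw [e1, sq, sum_mul_sum]
      refine sum_congr rfl fun j _ => sum_congr rfl fun k _ => ?_
      ring
    simp only [e]
    rw [intervalIntegral.integral_finset_sum fun j _ => by
      apply Continuous.intervalIntegrable
      fun_prop]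
    rw [mul_sum]
    refine sum_congr rfl fun j hj => ?_
    rw [intervalIntegral.integral_finset_sum fun k _ => by
      apply Continuous.intervalIntegrable
      fun_prop]
    simp only [intervalIntegral.integral_const_mul, ortho]
    rw [sum_eq_single j]
    · rw [if_pos rfl]; ring
    · intro k _ hk
      rw [if_neg (Ne.symm hk), mul_zero]
    · intro h; exact absurd hj h
  rw [hform, hval, ← mul_assoc, mul_div_assoc', inv_mul_cancel₀ Real.pi_ne_zero]
  -- the coefficients
  have hz : ∑ l : Fin m, z l ^ 2 ≤ (∑ j ∈ range m, d j ^ 2) * 49 ^ m := by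
    have s1 : ∑ l : Fin m, z l ^ 2 ≤ (∑ l : Fin m, |z l|) ^ 2 := by
      have : ∑ l : Fin m, z l ^ 2 = ∑ l : Fin m, |z l| ^ 2 := by simp only [sq_abs]
      rw [this]
      exact sum_sq_le_sq_sum_of_nonneg fun i _ => abs_nonneg _
    have s2 : ∑ l : Fin m, |z l| = nr m q := by
      unfold nr
      rw [← Fin.sum_univ_eq_sum_range (fun i => |q.coeff i|)]
      exact sum_congr rfl fun l _ => by rw [hqc]
    have s3 : nr m q ≤ ∑ j ∈ range m, |d j| * 7 ^ j := by
      calc nr m q ≤ ∑ i ∈ range m, ∑ j ∈ range m, |d j| * |(V j).coeff i| := by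
            unfold nr
            refine sum_le_sum fun i _ => ?_
            rw [hd, finset_sum_coeff]
            refine (abs_sum_le_sum_abs _ _).trans (le_of_eq (sum_congr rfl fun j _ => ?_))
            rw [coeff_C_mul, abs_mul]
        _ = ∑ j ∈ range m, |d j| * nr m (V j) := by
            rw [sum_comm]
            refine sum_congr rfl fun j _ => ?_
            rw [nr, mul_sum]
        _ ≤ _ := sum_le_sum fun j _ => mul_le_mul_of_nonneg_left (nr_V m j) (abs_nonneg _)
    have s4 : (∑ j ∈ range m, |d j| * 7 ^ j) ^ 2 ≤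
        (∑ j ∈ range m, |d j| ^ 2) * ∑ j ∈ range m, ((7 : ℝ) ^ j) ^ 2 :=
      sum_mul_sq_le_sq_mul_sq _ _ _
    have s5 : ∑ j ∈ range m, ((7 : ℝ) ^ j) ^ 2 ≤ 49 ^ m := by
      have e : ∀ j : ℕ, ((7 : ℝ) ^ j) ^ 2 = 49 ^ j := by
        intro j
        rw [← pow_mul, mul_comm, pow_mul]
        norm_num
      simp only [e]
      have g := geom_sum_eq (x := (49 : ℝ)) (by norm_num) m
      rw [g]
      have : (1 : ℝ) ≤ 49 ^ m := one_le_pow₀ (by norm_num)
      rw [div_le_iff₀ (by norm_num)]
      linarith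
    have s6 : nr m q ^ 2 ≤ (∑ j ∈ range m, |d j| * 7 ^ j) ^ 2 :=
      pow_le_pow_left₀ (nr_nonneg m q) s3 2
    simp only [sq_abs] at s4
    rw [s2] at s1
    have s7 : 0 ≤ ∑ j ∈ range m, d j ^ 2 := sum_nonneg fun _ _ => sq_nonneg _
    calc _ ≤ nr m q ^ 2 := s1
      _ ≤ _ := s6
      _ ≤ _ := s4
      _ ≤ _ := mul_le_mul_of_nonneg_left s5 s7
  have h49 : (0 : ℝ) < 49 ^ m := by positivity
  rw [one_div_pow, mul_assoc]
  refine mul_le_mul_of_nonneg_left ?_ (by norm_num)
  rw [one_div, inv_mul_le_iff₀ h49]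
  linarith

end Pool.Agent.Q299.PL.HA
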