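import Pool.Agent.Q295.PL.Stm
import Pool.Agent.Q53.LC.Swd

/-!
# Project LC2 (helper295), job BWB: the backward evolution
-/

set_option autoImplicit false

namespace Q299.PL

open Finset Equiv Matrix Q292.LC Q295.PL

section gen

variable {V : Type} [DecidableEq V] [Fintype V]

theorem mulVec_pm (g : V → ℝ) (s : Perm V) (x : V) : (pm s *ᵥ g) x = g (s x) := by
  have h : (pm s *ᵥ g) x = ∑ y, (if s x = y then (1 : ℝ) else 0) * g y := rfl
  rw [h]
  simp

/-- One step of the backward evolution. -/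
theorem mulVec_Mx (e : ℕ → V × V) (ω : ℕ → Bool) (A : Finset V) (δ : ℝ) (k : ℕ) (g : V → ℝ)
    (y : V) : (Mx e ω A δ k *ᵥ g) y = if tch e ω A k then
      (if ω k then g (swap (e k).1 (e k).2 y) else g y) else
      (1 - δ) * g y + δ * g (swap (e k).1 (e k).2 y) := by
  unfold Mx
  split_ifs with h1 h2
  · rw [mulVec_pm]
  · rw [one_mulVec]
  · unfold fr
    rw [Matrix.add_mulVec, Matrix.smul_mulVec, Matrix.smul_mulVec, Matrix.one_mulVec]
    simp only [Pi.add_apply, Pi.smul_apply, smul_eq_mul]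
    rw [mulVec_pm]

omit [Fintype V] in
theorem gp_add (e : ℕ → V × V) (ω : ℕ → Bool) (a k : ℕ) :
    gp e ω (a + k) = gp (sh a e) (sh a ω) k * gp e ω a := by
  induction k with
  | zero => rfl
  | succ k ih =>
    have h1 : gp e ω (a + (k + 1)) = if ω (a + k) then swap (e (a + k)).1 (e (a + k)).2 *
        gp e ω (a + k) else gp e ω (a + k) := rfl
    have h2 : gp (sh a e) (sh a ω) (k + 1) = if ω (k + a) then swap (e (k + a)).1 (e (k + a)).2 *
        gp (sh a e) (sh a ω) k else gp (sh a e) (sh a ω) k := rfl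
    rw [h1, h2, ih, add_comm k a]
    split_ifs
    · rw [mul_assoc]
    · rfl

omit [Fintype V] in
theorem tch_add (e : ℕ → V × V) (ω : ℕ → Bool) (A : Finset V) (a k : ℕ) :
    tch e ω A (a + k) ↔ tch (sh a e) (sh a ω) (A.image (gp e ω a)) k := by
  unfold tch
  simp only [Finset.mem_image, exists_exists_and_eq_and]
  have h : ∀ x, gp e ω (a + k) x = gp (sh a e) (sh a ω) k (gp e ω a x) := fun x => by
    rw [gp_add]; rfl
  simp only [h]
  have h2 : sh a e k = e (a + k) := by
    unfold sh
    rw [add_comm]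
  rw [h2]

omit [Fintype V] in
theorem Mx_add (e : ℕ → V × V) (ω : ℕ → Bool) (A : Finset V) (δ : ℝ) (a k : ℕ) :
    Mx e ω A δ (a + k) = Mx (sh a e) (sh a ω) (A.image (gp e ω a)) δ k := by
  have h1 : sh a e k = e (a + k) := by unfold sh; rw [add_comm]
  have h2 : sh a ω k = ω (a + k) := by unfold sh; rw [add_comm]
  unfold Mx
  rw [h1, h2]
  by_cases h : tch e ω A (a + k)
  · rw [if_pos h, if_pos ((tch_add e ω A a k).1 h)]
  · rw [if_neg h, if_neg fun h' => h ((tch_add e ω A a k).2 h')]

theorem bw_add (e : ℕ → V × V) (ω : ℕ → Bool) (A : Finset V) (δ : ℝ) (F : V → ℝ) (a b : ℕ) :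
    ∀ j ≤ b, bw e ω A δ (a + b) F j =
      bw (sh a e) (sh a ω) (A.image (gp e ω a)) δ b F j := by
  intro j
  induction j with
  | zero => intro _; rfl
  | succ j ih =>
    intro hj
    have h1 : a + b - 1 - j = a + (b - 1 - j) := by omega
    change Mx e ω A δ (a + b - 1 - j) *ᵥ bw e ω A δ (a + b) F j =
      Mx (sh a e) (sh a ω) (A.image (gp e ω a)) δ (b - 1 - j) *ᵥ
        bw (sh a e) (sh a ω) (A.image (gp e ω a)) δ b F j
    rw [h1, Mx_add, ih (by omega)]

end gen

/-- Job BWB. -/
theorem bwb : S_BWB := by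
  intro V _ _ e ω A δ F
  refine ⟨?_, fun a b => bw_add e ω A δ F a b, ?_, ?_⟩
  · intro n j
    induction j with
    | zero => intro _; rfl
    | succ j ih =>
      intro hj
      rw [ih (by omega)]
      have h1 : n - j = (n - 1 - j) + 1 := by omega
      have h2 : n - (j + 1) = n - 1 - j := by omega
      change TT e ω A δ (n - j) *ᵥ bw e ω A δ n F j = TT e ω A δ (n - (j + 1)) *ᵥ
        (Mx e ω A δ (n - 1 - j) *ᵥ bw e ω A δ n F j)
      rw [h1, h2, mulVec_mulVec]
      rfl
  · intro a b j hj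
    unfold dsp
    have h1 : a + b - 1 - j = a + (b - 1 - j) := by omega
    have h2 : sh a e (b - 1 - j) = e (a + (b - 1 - j)) := by unfold sh; rw [add_comm]
    rw [h1, bw_add e ω A δ F a b j hj.le, h2]
    by_cases h : tch e ω A (a + (b - 1 - j))
    · rw [if_pos h, if_pos ((tch_add e ω A a _).1 h)]
    · rw [if_neg h, if_neg fun h' => h ((tch_add e ω A a _).2 h')]
  · intro _ n j
    induction j with
    | zero =>
      intro _
      change ∑ x, (F x) ^ 2 - ∑ x, (F x) ^ 2 = _
      simp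
    | succ j ih =>
      intro hj
      have h1 : ∑ x, (bw e ω A δ n F j x) ^ 2 - ∑ x, (bw e ω A δ n F (j + 1) x) ^ 2 =
          2 * δ * (1 - δ) * dsp e ω A δ n F j := by
        have h2 : ∀ x, bw e ω A δ n F (j + 1) x =
            (Mx e ω A δ (n - 1 - j) *ᵥ bw e ω A δ n F j) x := fun _ => rfl
        simp only [h2, mulVec_Mx]
        unfold dsp
        split_ifs with h3 h4
        · rw [Pool.Agent.Q53.LC.sum_swap _ _ (fun y => (bw e ω A δ n F j y) ^ 2)]
          ring
        · ring
        · have := Pool.Agent.Q53.LC.sq_free (bw e ω A δ n F j) (e (n - 1 - j)).1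
            (e (n - 1 - j)).2 δ
          linarith
      rw [Finset.sum_range_succ, mul_add, ← ih (by omega), ← h1]
      ring

end Q299.PL
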