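import Pool.Agent.Q299.PL.Tool

/-!
# Project LC2 (helper295), job NSH: Nash inequality for a function which vanishes on a sparse set
-/

set_option autoImplicit false

namespace Q299.PL

open Finset Q292.LC Q295.PL Pool.Agent.Q151.LC

variable {d L : ℕ} [NeZero L]

theorem gE_nonneg (G : (Fin d → ZMod L) → ℝ) : 0 ≤ gE G :=
  Finset.sum_nonneg fun _ _ => sq_nonneg _

/-- Translation by a unit vector. -/
theorem shift_one (G : (Fin d → ZMod L) → ℝ) (v : Fin d → ZMod L) (i : Fin d) :
    ∑ x, (G (x + v + Pi.single i 1) - G (x + v)) ^ 2 ≤ gE G := by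
  have h1 : ∑ x, (G (x + v + Pi.single i 1) - G (x + v)) ^ 2 =
      ∑ x, (G (x + Pi.single i 1) - G x) ^ 2 :=
    Equiv.sum_comp (Equiv.addRight v) fun x => (G (x + Pi.single i 1) - G x) ^ 2
  rw [h1]
  unfold gE
  rw [Fintype.sum_prod_type_right]
  have h2 : ∑ x, (G (x + Pi.single i 1) - G x) ^ 2 =
      ∑ x : Fin d → ZMod L, (G (ed (x, i)).1 - G (ed (x, i)).2) ^ 2 := by
    refine Finset.sum_congr rfl fun x _ => ?_
    rw [ed_eq]
    ring
  rw [h2]
  exact Finset.single_le_sum (f := fun c : Fin d => ∑ x : Fin d → ZMod L,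
    (G (ed (x, c)).1 - G (ed (x, c)).2) ^ 2)
    (fun c _ => Finset.sum_nonneg fun _ _ => sq_nonneg _) (mem_univ i)

/-- Translation by a sum of `n` unit vectors. -/
theorem shift_n (G : (Fin d → ZMod L) → ℝ) (n : ℕ) :
    ∀ a : Fin d → ℕ, ∑ i, a i = n →
    ∑ x, (G (x + fun i => ((a i : ℕ) : ZMod L)) - G x) ^ 2 ≤ (n : ℝ) ^ 2 * gE G := by
  induction n with
  | zero =>
    intro a ha
    have h1 : ∀ i, a i = 0 := fun i => (Finset.sum_eq_zero_iff.1 ha) i (mem_univ i)
    have h2 : (fun i => ((a i : ℕ) : ZMod L)) = 0 := by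
      funext i
      rw [h1 i]
      simp
    rw [h2]
    simp
  | succ n ih =>
    intro a ha
    have hE := gE_nonneg G
    obtain ⟨i, hi⟩ : ∃ i, a i ≠ 0 := by
      by_contra hcon
      push Not at hcon
      rw [Finset.sum_eq_zero fun i _ => hcon i] at ha
      omega
    set b : Fin d → ℕ := Function.update a i (a i - 1) with hb
    have hbs : ∑ j, b j = n := by
      have h1 : ∑ j, a j = a i + ∑ j ∈ univ.erase i, a j :=
        (Finset.add_sum_erase _ _ (mem_univ i)).symm
      have h2 : ∑ j, b j = b i + ∑ j ∈ univ.erase i, b j :=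
        (Finset.add_sum_erase _ _ (mem_univ i)).symm
      have h3 : ∑ j ∈ univ.erase i, b j = ∑ j ∈ univ.erase i, a j :=
        Finset.sum_congr rfl fun j hj => by
          rw [hb, Function.update_of_ne (ne_of_mem_erase hj)]
      have h4 : b i = a i - 1 := by rw [hb, Function.update_self]
      omega
    have hv : (fun j => ((a j : ℕ) : ZMod L)) = (fun j => ((b j : ℕ) : ZMod L)) +
        Pi.single i 1 := by
      funext j
      rw [Pi.add_apply]
      by_cases h : j = i
      · subst h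
        rw [hb, Function.update_self, Pi.single_eq_same]
        have : a j = (a j - 1) + 1 := by omega
        conv_lhs => rw [this]
        push_cast
        rfl
      · rw [hb, Function.update_of_ne h, Pi.single_eq_of_ne h, add_zero]
    have h1 := ih b hbs
    have h2 := shift_one G (fun j => ((b j : ℕ) : ZMod L)) i
    rw [hv]
    simp only [← add_assoc]
    set v : Fin d → ZMod L := fun j => ((b j : ℕ) : ZMod L) with hvdef
    rcases Nat.eq_zero_or_pos n with hn | hn
    · subst hn
      have h3 : ∀ x, (G (x + v) - G x) ^ 2 = 0 := by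
        have h4 : ∑ x, (G (x + v) - G x) ^ 2 = 0 := by
          apply le_antisymm _ (Finset.sum_nonneg fun _ _ => sq_nonneg _)
          simpa using h1
        intro x
        exact (Finset.sum_eq_zero_iff_of_nonneg fun _ _ => sq_nonneg _).1 h4 x (mem_univ x)
      have h5 : ∀ x, G x = G (x + v) := by
        intro x
        have := pow_eq_zero_iff two_ne_zero |>.1 (h3 x)
        linarith
      have h6 : ∑ x, (G (x + v + Pi.single i 1) - G x) ^ 2 =
          ∑ x, (G (x + v + Pi.single i 1) - G (x + v)) ^ 2 :=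
        Finset.sum_congr rfl fun x _ => by rw [← h5 x]
      rw [h6]
      simpa using h2
    · have hn' : (0 : ℝ) < n := by exact_mod_cast hn
      have h3 : ∀ x, (G (x + v + Pi.single i 1) - G x) ^ 2 ≤
          (1 + n) * (G (x + v + Pi.single i 1) - G (x + v)) ^ 2 +
            (1 + 1 / n) * (G (x + v) - G x) ^ 2 := by
        intro x
        set p := G (x + v + Pi.single i 1) - G (x + v)
        set q := G (x + v) - G x
        have e1 : G (x + v + Pi.single i 1) - G x = p + q := by ring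
        rw [e1]
        have h4 : (1 + (n : ℝ)) * p ^ 2 + (1 + 1 / n) * q ^ 2 - (p + q) ^ 2 =
            (n * p - q) ^ 2 / n := by
          field_simp
          ring
        have h5 : 0 ≤ (n * p - q) ^ 2 / (n : ℝ) := by positivity
        linarith
      refine (Finset.sum_le_sum fun x _ => h3 x).trans ?_
      rw [Finset.sum_add_distrib, ← Finset.mul_sum, ← Finset.mul_sum]
      have h6 : (1 + (n : ℝ)) * ∑ x, (G (x + v + Pi.single i 1) - G (x + v)) ^ 2 ≤
          (1 + n) * gE G := mul_le_mul_of_nonneg_left h2 (by positivity)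
      have h7 : (1 + 1 / (n : ℝ)) * ∑ x, (G (x + v) - G x) ^ 2 ≤
          (1 + 1 / n) * (n ^ 2 * gE G) := mul_le_mul_of_nonneg_left h1 (by positivity)
      have h8 : (1 + 1 / (n : ℝ)) * (n ^ 2 * gE G) = (n ^ 2 + n) * gE G := by
        field_simp
      push_cast
      nlinarith

theorem card_val_lt {R : ℕ} (hR : R ≤ L) :
    (univ.filter fun a : ZMod L => a.val < R).card = R := by
  have h1 : (univ.filter fun a : ZMod L => a.val < R).card = (range R).card := by
    apply card_nbij' (fun a => a.val) (fun k => ((k : ℕ) : ZMod L))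
    · intro a ha
      rw [mem_coe, mem_filter] at ha
      rw [mem_coe, mem_range]
      exact ha.2
    · intro k hk
      rw [mem_coe, mem_range] at hk
      rw [mem_coe, mem_filter]
      refine ⟨mem_univ _, ?_⟩
      rw [ZMod.val_natCast, Nat.mod_eq_of_lt (by omega)]
      exact hk
    · intro a _
      exact ZMod.natCast_zmod_val a
    · intro k hk
      rw [mem_coe, mem_range] at hk
      change (k : ZMod L).val = k
      rw [ZMod.val_natCast, Nat.mod_eq_of_lt (by omega)]
  rw [h1, card_range]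

/-- The vectors of the box. -/
def bx (d L : ℕ) [NeZero L] (R : ℕ) : Finset (Fin d → ZMod L) :=
  Fintype.piFinset fun _ : Fin d => univ.filter fun a : ZMod L => a.val < R

theorem card_bx {R : ℕ} (hR : R ≤ L) : (bx d L R).card = R ^ d := by
  unfold bx
  rw [Fintype.card_piFinset]
  simp [card_val_lt hR]

/-- Job NSH. -/
theorem nsh : S_NSH := by
  intro d L _ hd hL A m R y g hR1 hRL hg hgA hy
  set G : (Fin d → ZMod L) → ℝ := fun x => g (y x) with hG
  have hG0 : ∀ x, 0 ≤ G x := fun x => hg _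
  have hE := gE_nonneg G
  have hR0 : (0 : ℝ) < R := by exact_mod_cast hR1
  have hRd : (0 : ℝ) < (R : ℝ) ^ d := by positivity
  have h1 : ∑ x, (g x) ^ 2 ≤ ∑ x, (G x) ^ 2 := by
    refine Finset.sum_le_sum fun x _ => ?_
    by_cases hx : x ∈ A
    · rw [hgA x hx]
      have := sq_nonneg (G x)
      simpa using this
    · have h2 : G x = g x := by
        rw [hG]
        simp only
        rw [(hy x).2.2 hx]
      rw [h2]
  -- shifts
  have hshift : ∀ v ∈ bx d L R, ∑ x, (G (x + v) - G x) ^ 2 ≤ ((d : ℝ) * R) ^ 2 * gE G := by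
    intro v hv
    unfold bx at hv
    rw [Fintype.mem_piFinset] at hv
    have e : (fun i => (((v i).val : ℕ) : ZMod L)) = v := by
      funext i
      exact ZMod.natCast_zmod_val (v i)
    have h2 := shift_n G _ (fun i => (v i).val) rfl
    rw [e] at h2
    refine h2.trans (mul_le_mul_of_nonneg_right ?_ hE)
    apply pow_le_pow_left₀ (by positivity)
    have h3 : ∑ i : Fin d, (v i).val ≤ d * R := by
      have : ∑ i : Fin d, (v i).val ≤ ∑ _i : Fin d, R :=
        Finset.sum_le_sum fun i _ => ((mem_filter.1 (hv i)).2).le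
      simpa using this
    exact_mod_cast h3
  have hcard : ((bx d L R).card : ℝ) = (R : ℝ) ^ d := by
    rw [card_bx hRL]
    push_cast
    rfl
  set h : (Fin d → ZMod L) → ℝ := fun x => (∑ v ∈ bx d L R, G (x + v)) / (R : ℝ) ^ d with hh
  have hJ : ∑ x, (G x - h x) ^ 2 ≤ ((d : ℝ) * R) ^ 2 * gE G := by
    have h2 : ∀ x, (G x - h x) ^ 2 ≤ (∑ v ∈ bx d L R, (G (x + v) - G x) ^ 2) / (R : ℝ) ^ d := by
      intro x
      have h3 : G x - h x = (∑ v ∈ bx d L R, (G x - G (x + v))) / (R : ℝ) ^ d := by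
        rw [Finset.sum_sub_distrib, Finset.sum_const, nsmul_eq_mul, hcard, hh]
        field_simp
      have h5 : (∑ v ∈ bx d L R, (G x - G (x + v))) ^ 2 ≤
          (bx d L R).card * ∑ v ∈ bx d L R, (G x - G (x + v)) ^ 2 := sq_sum_le_card_mul_sum_sq
      rw [hcard] at h5
      rw [h3, div_pow]
      rw [div_le_div_iff₀ (by positivity) hRd]
      have h6 : ∑ v ∈ bx d L R, (G (x + v) - G x) ^ 2 = ∑ v ∈ bx d L R, (G x - G (x + v)) ^ 2 :=
        Finset.sum_congr rfl fun v _ => by ring
      rw [h6]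
      nlinarith
    refine (Finset.sum_le_sum fun x _ => h2 x).trans ?_
    rw [← Finset.sum_div, Finset.sum_comm, div_le_iff₀ hRd]
    refine (Finset.sum_le_sum hshift).trans ?_
    rw [Finset.sum_const, nsmul_eq_mul, hcard]
    exact le_of_eq (mul_comm _ _)
  have hh0 : ∀ x, 0 ≤ h x := fun x =>
    div_nonneg (Finset.sum_nonneg fun v _ => hG0 _) hRd.le
  have hhle : ∀ x, h x ≤ (∑ x, G x) / (R : ℝ) ^ d := by
    intro x
    apply div_le_div_of_nonneg_right _ hRd.le
    have h2 : ∑ v ∈ bx d L R, G (x + v) ≤ ∑ v, G (x + v) :=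
      Finset.sum_le_sum_of_subset_of_nonneg (subset_univ _) fun v _ _ => hG0 _
    refine h2.trans (le_of_eq ?_)
    exact Equiv.sum_comp (Equiv.addLeft x) G
  have hhsum : ∑ x, h x = ∑ x, G x := by
    rw [hh]
    simp only
    rw [← Finset.sum_div, Finset.sum_comm]
    have h2 : ∀ v ∈ bx d L R, ∑ x, G (x + v) = ∑ x, G x := fun v _ =>
      Equiv.sum_comp (Equiv.addRight v) G
    rw [Finset.sum_congr rfl h2, Finset.sum_const, nsmul_eq_mul, hcard]
    field_simp
  have hh2 : ∑ x, (h x) ^ 2 ≤ (∑ x, G x) ^ 2 / (R : ℝ) ^ d := by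
    have h2 : ∀ x ∈ (univ : Finset (Fin d → ZMod L)), (h x) ^ 2 ≤
        (∑ x, G x) / (R : ℝ) ^ d * h x := by
      intro x _
      rw [sq]
      exact mul_le_mul_of_nonneg_right (hhle x) (hh0 x)
    refine (Finset.sum_le_sum h2).trans (le_of_eq ?_)
    rw [← Finset.mul_sum, hhsum]
    ring
  have hGG : ∑ x, (G x) ^ 2 ≤ 2 * ∑ x, (G x - h x) ^ 2 + 2 * ∑ x, (h x) ^ 2 := by
    rw [Finset.mul_sum, Finset.mul_sum, ← Finset.sum_add_distrib]
    refine Finset.sum_le_sum fun x _ => ?_
    nlinarith [sq_nonneg (G x - h x - h x)]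
  have hsumG : ∑ x, G x ≤ ((2 * m + 1 : ℕ) : ℝ) ^ d * ∑ x, g x := by
    have h2 : ∑ x, G x = ∑ p, ∑ x, (if y x = p then g p else 0) := by
      rw [Finset.sum_comm]
      refine Finset.sum_congr rfl fun x _ => ?_
      rw [Finset.sum_ite_eq]
      simp [hG]
    rw [h2, Finset.mul_sum]
    refine Finset.sum_le_sum fun p _ => ?_
    rw [← Finset.sum_filter, Finset.sum_const, nsmul_eq_mul]
    apply mul_le_mul_of_nonneg_right _ (hg p)
    have h3 : (univ.filter fun x => y x = p) ⊆ bal p m := by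
      intro x hx
      rw [mem_filter] at hx
      rw [mem_bal, td_comm, ← hx.2]
      exact (hy x).2.1
    have h4 := (card_le_card h3).trans (card_bal_le p m)
    exact_mod_cast h4
  have hsumG0 : 0 ≤ ∑ x, G x := Finset.sum_nonneg fun x _ => hG0 x
  have hfin : (∑ x, G x) ^ 2 ≤ ((2 * m + 1 : ℕ) : ℝ) ^ (2 * d) * (∑ x, g x) ^ 2 := by
    calc (∑ x, G x) ^ 2 ≤ (((2 * m + 1 : ℕ) : ℝ) ^ d * ∑ x, g x) ^ 2 :=
          pow_le_pow_left₀ hsumG0 hsumG 2
      _ = _ := by
          rw [mul_pow, ← pow_mul, mul_comm d 2]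
  calc ∑ x, (g x) ^ 2 ≤ ∑ x, (G x) ^ 2 := h1
    _ ≤ 2 * (((d : ℝ) * R) ^ 2 * gE G) + 2 * ((∑ x, G x) ^ 2 / (R : ℝ) ^ d) := by
        linarith
    _ ≤ 2 * (((d : ℝ) * R) ^ 2 * gE G) +
        2 * (((2 * m + 1 : ℕ) : ℝ) ^ (2 * d) * (∑ x, g x) ^ 2 / (R : ℝ) ^ d) := by
        have := div_le_div_of_nonneg_right hfin hRd.le
        linarith
    _ = _ := by ring

end Q299.PL
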