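import Pool.Agent.Q299.PL.WINB

/-!
# Project LC2 (helper295), job WIN: the window inequality
-/

set_option autoImplicit false

namespace Q299.PL

open Finset Equiv Matrix Q292.LC Q295.PL Pool.Agent.Q151.LC

theorem sum3 {α : Type} [Fintype α] (S : Finset ℕ) (a b : ℕ → α → ℝ) (c : α → ℕ → ℝ) (Q : ℝ) :
    ∑ x, ∑ s ∈ S, (6 * a s x + 6 * b s x + Q * c x s) =
      6 * ∑ s ∈ S, ∑ x, a s x + 6 * ∑ s ∈ S, ∑ x, b s x + Q * ∑ x, ∑ s ∈ S, c x s := by
  have h1 : ∑ s ∈ S, ∑ x, a s x = ∑ x, ∑ s ∈ S, a s x := Finset.sum_comm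
  have h2 : ∑ s ∈ S, ∑ x, b s x = ∑ x, ∑ s ∈ S, b s x := Finset.sum_comm
  rw [h1, h2, Finset.mul_sum, Finset.mul_sum, Finset.mul_sum, ← Finset.sum_add_distrib,
    ← Finset.sum_add_distrib]
  refine Finset.sum_congr rfl fun x _ => ?_
  rw [Finset.mul_sum, Finset.mul_sum, Finset.mul_sum, ← Finset.sum_add_distrib,
    ← Finset.sum_add_distrib]

/-- Job WIN. -/
theorem win : S_WIN := by
  classical
  intro d hd
  obtain ⟨CN, hCN1, hN⟩ := nrw d (by omega)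
  obtain ⟨CP, hCP1, hP⟩ := pth d hd
  obtain ⟨K1, hK1⟩ : ∃ K1 : ℝ, K1 = 24 * d + 36 * CP * d * 4 ^ d := ⟨_, rfl⟩
  refine ⟨⌈2 * CN⌉₊ + 16 * d + 16 + ⌈K1⌉₊, by omega, ?_⟩
  intro L _ hL σ hσ ω A δ q u lam r ρ κ₀ R y f h0 hC hq1 hq2 hu hEv hk1 hk2 hR hr hy
  obtain ⟨C, hCdef⟩ : ∃ C : ℕ, C = ⌈2 * CN⌉₊ + 16 * d + 16 + ⌈K1⌉₊ := ⟨_, rfl⟩
  rw [← hCdef] at hC hR ⊢
  have hCr : (C : ℝ) = ⌈2 * CN⌉₊ + 16 * d + 16 + ⌈K1⌉₊ := by rw [hCdef]; push_cast; ring
  have hc1 : 2 * CN ≤ ⌈2 * CN⌉₊ := Nat.le_ceil _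
  have hc2 : K1 ≤ ⌈K1⌉₊ := Nat.le_ceil _
  have hd0 : (0 : ℝ) ≤ d := Nat.cast_nonneg _
  have hK10 : 0 ≤ K1 := by rw [hK1]; positivity
  have hceil1 : (0 : ℝ) ≤ ⌈2 * CN⌉₊ := Nat.cast_nonneg _
  have hceil2 : (0 : ℝ) ≤ ⌈K1⌉₊ := Nat.cast_nonneg _
  have hCNδ : CN * δ ≤ 1 := by nlinarith
  have h16 : 16 * d * δ ≤ 1 := by nlinarith
  have hδ2 : δ ≤ 1 / 2 := by nlinarith
  have hδ1 : δ ≤ 1 := by linarith
  have hL0 : 0 < L := by omega
  have hms : 0 < ms d L := by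
    unfold ms
    positivity
  -- numbers
  have hC16 : 16 ≤ C := by omega
  have hX : 16 * ((lam + 1) * ((ρ + 1) * u)) ≤ R := by
    refine le_trans ?_ hR
    calc 16 * ((lam + 1) * ((ρ + 1) * u)) ≤ C * ((lam + 1) * ((ρ + 1) * u)) :=
          Nat.mul_le_mul_right _ hC16
      _ = C * (lam + 1) * (ρ + 1) * u := by ring
  have hX1 : lam + 1 ≤ (lam + 1) * ((ρ + 1) * u) := Nat.le_mul_of_pos_right _ (by positivity)
  have hX2 : ρ * u ≤ (lam + 1) * ((ρ + 1) * u) := by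
    calc ρ * u ≤ (ρ + 1) * u := Nat.mul_le_mul_right _ (by omega)
      _ ≤ (lam + 1) * ((ρ + 1) * u) := Nat.le_mul_of_pos_left _ (by omega)
  have hNR : CN * ((u : ℝ) + ((lam * (ρ * u) : ℕ) : ℝ) + 1) ≤ R := by
    have hur : (1 : ℝ) ≤ u := by exact_mod_cast hu
    have hR' : (C : ℝ) * (lam + 1) * (ρ + 1) * u ≤ R := by exact_mod_cast hR
    have hl0 : (0 : ℝ) ≤ lam := Nat.cast_nonneg _
    have hρ0 : (0 : ℝ) ≤ ρ := Nat.cast_nonneg _
    have h1 : (u : ℝ) + ((lam * (ρ * u) : ℕ) : ℝ) + 1 ≤ 2 * ((lam + 1) * (ρ + 1) * u) := by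
      push_cast
      have e1 : 0 ≤ (lam : ℝ) * (ρ * u) := by positivity
      have e2 : 0 ≤ (lam : ℝ) * u := by positivity
      have e3 : 0 ≤ (ρ : ℝ) * u := by positivity
      nlinarith
    have h2 : (0 : ℝ) ≤ (lam + 1) * (ρ + 1) * u := by positivity
    calc CN * ((u : ℝ) + ((lam * (ρ * u) : ℕ) : ℝ) + 1)
        ≤ CN * (2 * ((lam + 1) * (ρ + 1) * u)) :=
          mul_le_mul_of_nonneg_left h1 (by linarith)
      _ = 2 * CN * ((lam + 1) * (ρ + 1) * u) := by ring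
      _ ≤ C * ((lam + 1) * (ρ + 1) * u) := by
          apply mul_le_mul_of_nonneg_right _ h2
          rw [hCr]
          linarith
      _ = C * (lam + 1) * (ρ + 1) * u := by ring
      _ ≤ R := hR'
  obtain ⟨hEv1, hEv2, hEv3⟩ := hEv
  obtain ⟨R1, hR1⟩ : ∃ R1 : ℕ, R1 = R + lam + 1 := ⟨_, rfl⟩
  have hlam : ∀ x, (A ∩ bal x (R1 + 3 + ρ * u + 4)).card ≤ lam := by
    intro x
    refine le_trans (card_le_card ?_) (hEv1 0 (Nat.zero_le _) x)
    intro a ha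
    rw [mem_inter] at ha ⊢
    refine ⟨?_, bal_mono x (by omega) ha.2⟩
    rw [Nat.zero_mul, mem_image]
    exact ⟨a, ha.1, rfl⟩
  have hJall : ∀ a ∈ A, jumps (ed ∘ σ) ω 0 (u * (q * ms d L)) a ≤ ρ * u := fun a ha =>
    jumps_units (ed ∘ σ) ω a (q * ms d L) ρ u (fun j hj => hEv2 j hj a ha)
  have hcnt : ∀ p, ((Finset.range (u * (q * ms d L))).filter fun k => ω k = true ∧
      tch (ed ∘ σ) ω A k ∧ ((ed (σ k)).1 ∈ bal p R ∨ (ed (σ k)).2 ∈ bal p R)).card ≤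
        lam * (ρ * u) := by
    intro p
    refine le_trans (card_le_card ?_)
      (cnt_jump σ ω A p (u * (q * ms d L)) (R1 + 3) (ρ * u) lam hJall (hlam p))
    intro k hk
    rw [mem_filter] at hk ⊢
    refine ⟨hk.1, hk.2.1, hk.2.2.1, ?_⟩
    rcases hk.2.2.2 with h | h
    · exact Or.inl (bal_mono p (by omega) h)
    · exact Or.inr (bal_mono p (by omega) h)
  have hnear : ∀ p, ∀ k ≤ u * (q * ms d L), 1 / 2 ≤ ∑ z ∈ bal p R, TT (ed ∘ σ) ω A δ k p z :=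
    fun p k hk => hN L hL σ hσ ω A δ q u R (lam * (ρ * u)) p h0 hCNδ hq2 (hcnt p) hNR k hk
  obtain ⟨M, hM⟩ : ∃ M, M = ms d L := ⟨_, rfl⟩
  obtain ⟨n, hn⟩ : ∃ n, n = u * (q * ms d L) := ⟨_, rfl⟩
  have hn' : n = (u * q) * M := by rw [hn, hM]; ring
  obtain ⟨g, hg⟩ : ∃ g, g = TT (ed ∘ σ) ω A δ n *ᵥ f := ⟨_, rfl⟩
  rw [← hn, ← hg]
  obtain ⟨D, hD⟩ : ∃ D, D = ∑ x, (f x) ^ 2 - ∑ x, (g x) ^ 2 := ⟨_, rfl⟩
  rw [← hD]
  obtain ⟨bw1, bw2, bw3, bw4⟩ := bwb _ (ed ∘ σ) ω A δ f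
  have hne : ∀ k, ((ed ∘ σ) k).1 ≠ ((ed ∘ σ) k).2 := by
    intro k h
    have h1 := td_e hL (σ k).1 (σ k).2
    simp only [Function.comp_apply] at h
    rw [ed_eq] at h
    simp only at h
    rw [← h, Pool.Agent.Q151.LC.td_self] at h1
    omega
  have hbw4 := bw4 hne n
  -- dissipation
  have hDd : D = 2 * δ * (1 - δ) * ∑ t ∈ range n, dsp (ed ∘ σ) ω A δ n f t := by
    rw [← hbw4 n le_rfl, hD]
    have h1 := bw1 n n le_rfl
    rw [Nat.sub_self] at h1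
    have h2 : TT (ed ∘ σ) ω A δ 0 = 1 := rfl
    rw [h2, one_mulVec, ← hg] at h1
    rw [h1]
  have hdsp0 : 0 ≤ ∑ t ∈ range n, dsp (ed ∘ σ) ω A δ n f t :=
    Finset.sum_nonneg fun t _ => dsp_nonneg _ _ _ _ _ _ _
  have hD0 : 0 ≤ D := by
    rw [hDd]
    have : 0 ≤ 2 * δ * (1 - δ) := by nlinarith
    exact mul_nonneg this hdsp0
  have huq1 : 1 ≤ δ * (u * q : ℕ) := by
    have hur : (1 : ℝ) ≤ u := by exact_mod_cast hu
    push_cast
    nlinarith
  have huq0 : (0 : ℝ) < (u * q : ℕ) := by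
    by_contra hcon
    push Not at hcon
    nlinarith
  have hdspD : ∑ t ∈ range n, dsp (ed ∘ σ) ω A δ n f t ≤ (u * q : ℕ) * D := by
    set S := ∑ t ∈ range n, dsp (ed ∘ σ) ω A δ n f t with hS
    have h1 : δ * S ≤ D := by
      rw [hDd]
      have : 0 ≤ δ * S := mul_nonneg h0.le hdsp0
      nlinarith
    calc S = 1 * S := (one_mul _).symm
      _ ≤ (δ * (u * q : ℕ)) * S := mul_le_mul_of_nonneg_right huq1 hdsp0
      _ = (u * q : ℕ) * (δ * S) := by ring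
      _ ≤ (u * q : ℕ) * D := mul_le_mul_of_nonneg_left h1 huq0.le
  -- the functions at the ends of the sweeps
  obtain ⟨Fs, hFs⟩ : ∃ Fs : ℕ → (Fin d → ZMod L) → ℝ, ∀ s, Fs s =
      bw (ed ∘ σ) ω A δ n f (n - (s + 1) * M) := ⟨_, fun _ => rfl⟩
  have hle : ∀ s < u * q, (s + 1) * M ≤ n := by
    intro s hs
    rw [hn']
    exact Nat.mul_le_mul_right _ hs
  have hgF : ∀ s < u * q, TT (ed ∘ σ) ω A δ ((s + 1) * M) *ᵥ Fs s = g := by
    intro s hs
    have h1 := bw1 n (n - (s + 1) * M) (Nat.sub_le _ _)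
    rw [Nat.sub_sub_self (hle s hs)] at h1
    rw [hg, h1, hFs]
  have hFsq : ∀ s < u * q, ∑ x, (Fs s x) ^ 2 ≤ ∑ x, (f x) ^ 2 := by
    intro s hs
    have h1 := hbw4 (n - (s + 1) * M) (Nat.sub_le _ _)
    have h2 : 0 ≤ 2 * δ * (1 - δ) * ∑ i ∈ range (n - (s + 1) * M),
        dsp (ed ∘ σ) ω A δ n f i := by
      have h3 : 0 ≤ 2 * δ * (1 - δ) := by nlinarith
      exact mul_nonneg h3 (Finset.sum_nonneg fun t _ => dsp_nonneg _ _ _ _ _ _ _)
    rw [hFs]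
    linarith
  obtain ⟨b2a, b2b, b2c, -, b2e, -⟩ := Pool.Agent.Q68.LC.bas2 _ (ed ∘ σ) ω A δ h0.le hδ1
  obtain ⟨Var, hVar⟩ : ∃ Var : ℕ → (Fin d → ZMod L) → ℝ, ∀ s p, Var s p =
      ∑ z, TT (ed ∘ σ) ω A δ ((s + 1) * M) p z * (Fs s z - g p) ^ 2 := ⟨_, fun _ _ => rfl⟩
  have hVar0 : ∀ s p, 0 ≤ Var s p := by
    intro s p
    rw [hVar]
    exact Finset.sum_nonneg fun z _ => mul_nonneg (b2a _ _ _) (sq_nonneg _)
  have hVarD : ∀ s < u * q, ∑ p, Var s p ≤ D := by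
    intro s hs
    have h1 := (Pool.Agent.Q38.L2.jen _ (TT (ed ∘ σ) ω A δ ((s + 1) * M)) (Fs s)
      (b2a _) (b2b _) (b2c _)).1
    rw [hgF s hs] at h1
    simp only [hVar]
    rw [h1, hD]
    have := hFsq s hs
    linarith
  -- the sweep inequality
  obtain ⟨Q, hQ⟩ : ∃ Q : ℝ, Q = 3 * CP * (R1 + 1) := ⟨_, rfl⟩
  have hQ0 : 0 ≤ Q := by rw [hQ]; positivity
  have key : ∀ (x : Fin d → ZMod L) (i : Fin d), ∀ s < u * q, ¬ B1 σ ω A x (R1 + 3) s →
      ¬ B2 σ ω A x R1 (s + 1) → (g (y x) - g (y (x + Pi.single i 1))) ^ 2 ≤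
      6 * Var s (y x) + 6 * Var s (y (x + Pi.single i 1)) +
        3 * Q * Sg σ ω A δ (Fs s) x (R1 + 4) s := by
    intro x i s hs hb1 hb2
    have hsw := nice_sweep (by omega) hL (by linarith : 0 ≤ CP) (hP L hL) hσ ω A h0 h16 (Fs s)
      x R1 s hb1 hb2
    rw [← hM] at hsw
    obtain ⟨T, hT⟩ : ∃ T, T = TT (ed ∘ σ) ω A δ ((s + 1) * M) := ⟨_, rfl⟩
    have hTg : T *ᵥ Fs s = g := by rw [hT]; exact hgF s hs
    have hT0 : ∀ a b, 0 ≤ T a b := by rw [hT]; exact b2a _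
    have hjen := (Pool.Agent.Q38.L2.jen _ T (Fs s) hT0 (by rw [hT]; exact b2b _)
      (by rw [hT]; exact b2c _)).2
    rw [hTg] at hjen
    have hk : (s + 1) * M ≤ u * (q * ms d L) := by rw [← hn]; exact hle s hs
    have hhalf : ∀ p, 1 / 2 ≤ ∑ z ∈ bal p R, T p z := fun p => by rw [hT]; exact hnear p _ hk
    set p := y x with hp
    set p' := y (x + Pi.single i 1) with hp'
    have hpA : p ∉ A := (hy x).1
    have hpA' : p' ∉ A := (hy _).1
    have hxp : td x p ≤ lam + 1 := by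
      have h1 : td x p ≤ lam := (hy x).2.1
      omega
    have hxp' : td x p' ≤ lam + 1 := by
      have h1 : td (x + Pi.single i 1) p' ≤ lam := (hy (x + Pi.single i 1)).2.1
      have h2 := td_tri x (x + Pi.single i 1) p'
      rw [td_e hL] at h2
      omega
    have hsupp : ∀ a, a ∉ A → td x a ≤ lam + 1 → ∀ z ∈ bal a R, T a z ≠ 0 →
        z ∈ bal x R1 \ A.image (gp (ed ∘ σ) ω ((s + 1) * M)) := by
      intro a haA hxa z hz hTz
      rw [mem_sdiff]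
      refine ⟨?_, fun hzA => hTz ?_⟩
      · rw [mem_bal] at hz ⊢
        have := td_tri x a z
        omega
      · rw [hT]
        exact b2e _ a haA z hzA
    have j1 := hjen p (bal p R) (hhalf p)
    have j2 := hjen p' (bal p' R) (hhalf p')
    have hv1 : ∑ z, T p z * (Fs s z - g p) ^ 2 = Var s p := by rw [hVar, hT]
    have hv2 : ∑ z, T p' z * (Fs s z - g p') ^ 2 = Var s p' := by rw [hVar, hT]
    rw [hv1] at j1
    rw [hv2] at j2
    have hSg0 := Sg_nonneg σ ω A δ (Fs s) x (R1 + 4) s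
    have j3 := avg_diff (T p) (T p') (Fs s) (bal p R) (bal p' R)
      (bal x R1 \ A.image (gp (ed ∘ σ) ω ((s + 1) * M)))
      (3 * CP * (R1 + 1) * Sg σ ω A δ (Fs s) x (R1 + 4) s) (hT0 p) (hT0 p')
      (by have := hhalf p; linarith) (by have := hhalf p'; linarith)
      (hsupp p hpA hxp) (hsupp p' hpA' hxp') (by rw [← hQ]; exact mul_nonneg hQ0 hSg0) hsw
    rw [← hQ] at j3
    set a1 := (∑ z ∈ bal p R, T p z * Fs s z) / (∑ z ∈ bal p R, T p z) with ha1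
    set a2 := (∑ z ∈ bal p' R, T p' z * Fs s z) / (∑ z ∈ bal p' R, T p' z) with ha2
    have h3 : (g p - g p') ^ 2 ≤ 3 * (a1 - g p) ^ 2 + 3 * (a1 - a2) ^ 2 + 3 * (a2 - g p') ^ 2 := by
      have e : g p - g p' = -(a1 - g p) + (a1 - a2) + (a2 - g p') := by ring
      rw [e]
      nlinarith [sq_nonneg (-(a1 - g p) - (a1 - a2)), sq_nonneg ((a1 - a2) - (a2 - g p')),
        sq_nonneg (-(a1 - g p) - (a2 - g p'))]
    linarith
  -- sum over the nice sweeps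
  have hpair : ∀ a ∈ A, ∀ b ∈ A, a ≠ b → ((Finset.range (u * q + 1)).filter fun s =>
      td (gp (ed ∘ σ) ω (s * ms d L) a) (gp (ed ∘ σ) ω (s * ms d L) b) ≤ 3).card ≤ κ₀ * q := hEv3
  have key2 : ∀ (x : Fin d → ZMod L) (i : Fin d),
      (u * q : ℕ) * (g (y x) - g (y (x + Pi.single i 1))) ^ 2 ≤
      2 * ∑ s ∈ range (u * q), (6 * Var s (y x) + 6 * Var s (y (x + Pi.single i 1)) +
        3 * Q * Sg σ ω A δ (Fs s) x (R1 + 4) s) := by
    intro x i
    have h1 := nice_count hms ω A q u lam ρ κ₀ x R1 hJall (hlam x) hpair hk1 hk2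
    set nice := ((range (u * q)).filter fun s =>
      ¬ B1 σ ω A x (R1 + 3) s ∧ ¬ B2 σ ω A x R1 (s + 1)) with hnice
    have h2 : (nice.card : ℝ) * (g (y x) - g (y (x + Pi.single i 1))) ^ 2 ≤
        ∑ s ∈ nice, (6 * Var s (y x) + 6 * Var s (y (x + Pi.single i 1)) +
        3 * Q * Sg σ ω A δ (Fs s) x (R1 + 4) s) := by
      rw [← nsmul_eq_mul, ← Finset.sum_const]
      refine Finset.sum_le_sum fun s hs => ?_
      rw [hnice, mem_filter, mem_range] at hs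
      exact key x i s hs.1 hs.2.1 hs.2.2
    have h3 : ∑ s ∈ nice, (6 * Var s (y x) + 6 * Var s (y (x + Pi.single i 1)) +
        3 * Q * Sg σ ω A δ (Fs s) x (R1 + 4) s) ≤
        ∑ s ∈ range (u * q), (6 * Var s (y x) + 6 * Var s (y (x + Pi.single i 1)) +
        3 * Q * Sg σ ω A δ (Fs s) x (R1 + 4) s) := by
      apply Finset.sum_le_sum_of_subset_of_nonneg (filter_subset _ _)
      intro s _ _
      have e1 := hVar0 s (y x)
      have e2 := hVar0 s (y (x + Pi.single i 1))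
      have e3 := mul_nonneg hQ0 (Sg_nonneg σ ω A δ (Fs s) x (R1 + 4) s)
      nlinarith
    have h4 : ((u * q : ℕ) : ℝ) ≤ 2 * nice.card := by exact_mod_cast h1
    have h5 := mul_le_mul_of_nonneg_right h4 (sq_nonneg (g (y x) - g (y (x + Pi.single i 1))))
    linarith
  -- sum over the sites
  obtain ⟨b, hb⟩ : ∃ b : ℝ, b = ((2 * lam + 1 : ℕ) : ℝ) ^ d := ⟨_, rfl⟩
  obtain ⟨b', hb'⟩ : ∃ b' : ℝ, b' = ((2 * (R1 + 4) + 1 : ℕ) : ℝ) ^ d := ⟨_, rfl⟩
  have hb0 : 0 ≤ b := by rw [hb]; positivity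
  have hb0' : 0 ≤ b' := by rw [hb']; positivity
  have hV1 : ∀ s < u * q, ∑ x, Var s (y x) ≤ b * D := by
    intro s hs
    rw [hb]
    exact (sum_ex hy (Var s) (hVar0 s)).trans
      (mul_le_mul_of_nonneg_left (hVarD s hs) (by positivity))
  have hV2 : ∀ s < u * q, ∀ i : Fin d,
      ∑ x : Fin d → ZMod L, Var s (y (x + Pi.single i 1)) ≤ b * D := by
    intro s hs i
    have h1 : ∑ x : Fin d → ZMod L, Var s (y (x + Pi.single i 1)) = ∑ x, Var s (y x) :=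
      Equiv.sum_comp (Equiv.addRight (Pi.single i 1 : Fin d → ZMod L)) fun x => Var s (y x)
    rw [h1]
    exact hV1 s hs
  have hS1 : ∑ x, ∑ s ∈ range (u * q), Sg σ ω A δ (Fs s) x (R1 + 4) s ≤
      b' * ((u * q : ℕ) * D) := by
    have h1 : ∀ x, ∑ s ∈ range (u * q), Sg σ ω A δ (Fs s) x (R1 + 4) s =
        ∑ s ∈ range (u * q), ∑ j ∈ range M, (if (ed (σ (M - 1 - j))).1 ∈ bal x (R1 + 4) ∧
          (ed (σ (M - 1 - j))).2 ∈ bal x (R1 + 4) then
            dsp (ed ∘ σ) ω A δ n f ((u * q - 1 - s) * M + j) else 0) := by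
      intro x
      refine Finset.sum_congr rfl fun s hs => ?_
      rw [mem_range] at hs
      unfold Sg
      rw [← hM]
      refine Finset.sum_congr rfl fun j hj => ?_
      rw [mem_range] at hj
      have h2 := dsp_coc (ed ∘ σ) ω A δ f (hle s hs) j (by
        calc j < M := hj
          _ = 1 * M := (one_mul _).symm
          _ ≤ (s + 1) * M := Nat.mul_le_mul_right _ (by omega))
      rw [← hFs] at h2
      have h3 : n - (s + 1) * M = (u * q - 1 - s) * M := by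
        rw [hn', ← Nat.sub_mul]
        congr 1
        omega
      rw [← h2, h3]
    simp only [h1]
    rw [Finset.sum_comm]
    have h2 : ∀ s ∈ range (u * q), ∑ x : Fin d → ZMod L, ∑ j ∈ range M,
        (if (ed (σ (M - 1 - j))).1 ∈ bal x (R1 + 4) ∧
          (ed (σ (M - 1 - j))).2 ∈ bal x (R1 + 4) then
            dsp (ed ∘ σ) ω A δ n f ((u * q - 1 - s) * M + j) else 0) ≤
        b' * ∑ j ∈ range M, dsp (ed ∘ σ) ω A δ n f ((u * q - 1 - s) * M + j) := by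
      intro s _
      rw [Finset.sum_comm, Finset.mul_sum]
      refine Finset.sum_le_sum fun j _ => ?_
      rw [← Finset.sum_filter, Finset.sum_const, nsmul_eq_mul]
      apply mul_le_mul_of_nonneg_right _ (dsp_nonneg _ _ _ _ _ _ _)
      have h3 : (univ.filter fun x => (ed (σ (M - 1 - j))).1 ∈ bal x (R1 + 4) ∧
          (ed (σ (M - 1 - j))).2 ∈ bal x (R1 + 4)) ⊆ bal (ed (σ (M - 1 - j))).1 (R1 + 4) := by
        intro x hx
        rw [mem_filter] at hx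
        have := hx.2.1
        rw [mem_bal] at this ⊢
        rw [td_comm]
        exact this
      have h4 := (card_le_card h3).trans (card_bal_le _ _)
      rw [hb']
      exact_mod_cast h4
    refine (Finset.sum_le_sum h2).trans ?_
    rw [← Finset.mul_sum]
    apply mul_le_mul_of_nonneg_left _ hb0'
    rw [Finset.sum_range_reflect (fun s => ∑ j ∈ range M, dsp (ed ∘ σ) ω A δ n f (s * M + j))
      (u * q), ← sum_range_mul' (u * q) M, ← hn']
    exact hdspD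
  -- the total
  have htot : (u * q : ℕ) * gE (fun x => g (y x)) ≤
      (u * q : ℕ) * ((24 * d * b + 6 * Q * d * b') * D) := by
    have h1 : (u * q : ℕ) * gE (fun x => g (y x)) =
        ∑ i : Fin d, ∑ x, (u * q : ℕ) * (g (y x) - g (y (x + Pi.single i 1))) ^ 2 := by
      unfold gE
      rw [Fintype.sum_prod_type_right, Finset.mul_sum]
      refine Finset.sum_congr rfl fun i _ => ?_
      rw [Finset.mul_sum]
      refine Finset.sum_congr rfl fun x _ => ?_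
      rw [ed_eq]
    have h2 : ∀ i : Fin d, ∑ x, (u * q : ℕ) * (g (y x) - g (y (x + Pi.single i 1))) ^ 2 ≤
        (u * q : ℕ) * ((24 * b + 6 * Q * b') * D) := by
      intro i
      refine (Finset.sum_le_sum fun x _ => key2 x i).trans ?_
      rw [← Finset.mul_sum]
      have h3 : ∑ x : Fin d → ZMod L, ∑ s ∈ range (u * q), (6 * Var s (y x) +
          6 * Var s (y (x + Pi.single i 1)) + 3 * Q * Sg σ ω A δ (Fs s) x (R1 + 4) s) =
          6 * ∑ s ∈ range (u * q), ∑ x, Var s (y x) +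
          6 * ∑ s ∈ range (u * q), ∑ x : Fin d → ZMod L, Var s (y (x + Pi.single i 1)) +
          3 * Q * ∑ x, ∑ s ∈ range (u * q), Sg σ ω A δ (Fs s) x (R1 + 4) s := by
        exact sum3 (range (u * q)) (fun s x => Var s (y x))
          (fun s x => Var s (y (x + Pi.single i 1)))
          (fun x s => Sg σ ω A δ (Fs s) x (R1 + 4) s) (3 * Q)
      rw [h3]
      have h4 : ∑ s ∈ range (u * q), ∑ x, Var s (y x) ≤ (u * q : ℕ) * (b * D) := by
        refine (Finset.sum_le_sum fun s hs => hV1 s (mem_range.1 hs)).trans ?_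
        rw [Finset.sum_const, nsmul_eq_mul, card_range]
      have h5 : ∑ s ∈ range (u * q), ∑ x : Fin d → ZMod L, Var s (y (x + Pi.single i 1)) ≤
          (u * q : ℕ) * (b * D) := by
        refine (Finset.sum_le_sum fun s hs => hV2 s (mem_range.1 hs) i).trans ?_
        rw [Finset.sum_const, nsmul_eq_mul, card_range]
      have h6 := mul_le_mul_of_nonneg_left hS1 (by positivity : 0 ≤ 3 * Q)
      calc _ ≤ 2 * (6 * ((u * q : ℕ) * (b * D)) + 6 * ((u * q : ℕ) * (b * D)) +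
            3 * Q * (b' * ((u * q : ℕ) * D))) := by linarith
        _ = _ := by ring
    rw [h1]
    refine (Finset.sum_le_sum fun i _ => h2 i).trans (le_of_eq ?_)
    rw [Finset.sum_const, Finset.card_univ, Fintype.card_fin, nsmul_eq_mul]
    ring
  have hfin := le_of_mul_le_mul_left htot huq0
  refine hfin.trans ?_
  apply mul_le_mul_of_nonneg_right _ hD0
  -- constants
  have hR16 : 16 * (lam + 1) ≤ R := by omega
  have hR1r : (1 : ℝ) ≤ R := by
    have : 1 ≤ R := by omega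
    exact_mod_cast this
  have hRd : (0 : ℝ) < (R : ℝ) ^ d := by positivity
  have hbR : b ≤ (R : ℝ) ^ (d + 1) := by
    rw [hb, pow_succ]
    have h1 : ((2 * lam + 1 : ℕ) : ℝ) ^ d ≤ (R : ℝ) ^ d := by
      apply pow_le_pow_left₀ (Nat.cast_nonneg _)
      exact_mod_cast (by omega : 2 * lam + 1 ≤ R)
    nlinarith
  have hbR' : b' ≤ 4 ^ d * (R : ℝ) ^ d := by
    rw [hb', ← mul_pow]
    apply pow_le_pow_left₀ (Nat.cast_nonneg _)
    exact_mod_cast (by omega : 2 * (R1 + 4) + 1 ≤ 4 * R)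
  have hQR : Q ≤ 6 * CP * R := by
    rw [hQ]
    have h1 : ((R1 : ℝ) + 1) ≤ 2 * R := by
      exact_mod_cast (by omega : R1 + 1 ≤ 2 * R)
    have h2 : 0 ≤ 3 * CP := by linarith
    calc 3 * CP * ((R1 : ℝ) + 1) ≤ 3 * CP * (2 * R) := mul_le_mul_of_nonneg_left h1 h2
      _ = _ := by ring
  have hCP0 : 0 ≤ CP := by linarith
  calc 24 * d * b + 6 * Q * d * b' ≤ 24 * d * (R : ℝ) ^ (d + 1) +
        6 * (6 * CP * R) * d * (4 ^ d * (R : ℝ) ^ d) := by gcongr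
    _ = K1 * (R : ℝ) ^ (d + 1) := by rw [hK1, pow_succ]; ring
    _ ≤ C * (R : ℝ) ^ (d + 1) := by
        apply mul_le_mul_of_nonneg_right _ (by positivity)
        rw [hCr]
        linarith

end Q299.PL
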