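import Pool.Agent.Q295.PL.Stm
import Pool.Agent.Q53.LC.Kil

/-!
# Project LC2 (helper295), job NRW: the walk stays near its start with probability one half
-/

set_option autoImplicit false

namespace Q299.PL

open Finset Equiv Matrix Q292.LC Q295.PL Pool.Agent.Q53.LC

section gen

variable {V : Type} [DecidableEq V] [Fintype V]

theorem kv_mass_step (e : ℕ → V × V) (ω : ℕ → Bool) (A : Finset V) (δ : ℝ) (B : Finset V)
    (h0 : 0 ≤ δ) (h1 : δ ≤ 1) (g : V → ℝ) (hg : ∀ x, 0 ≤ g x) (n : ℕ) :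
    ∑ y, kv e ω A δ B g (n + 1) y ≤ ∑ y, kv e ω A δ B g n y := by
  rw [← sum_Mx e ω A δ n (kv e ω A δ B g n)]
  refine Finset.sum_le_sum fun y _ => ?_
  change (if y ∈ B then vecMul (kv e ω A δ B g n) (Mx e ω A δ n) y else 0) ≤ _
  split_ifs
  · exact le_rfl
  · exact vecMul_nonneg _ _ (Mx_nonneg e ω A δ h0 h1 n) (kv_nonneg e ω A δ B h0 h1 g hg n) y

theorem kv_mass (e : ℕ → V × V) (ω : ℕ → Bool) (A : Finset V) (δ : ℝ) (B : Finset V)
    (h0 : 0 ≤ δ) (h1 : δ ≤ 1) (g : V → ℝ) (hg : ∀ x, 0 ≤ g x) {k n : ℕ} (h : k ≤ n) :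
    ∑ y, kv e ω A δ B g n y ≤ ∑ y, kv e ω A δ B g k y := by
  induction n, h using Nat.le_induction with
  | base => exact le_rfl
  | succ n _ ih => exact (kv_mass_step e ω A δ B h0 h1 g hg n).trans ih

end gen

/-- Job NRW. -/
theorem nrw : S_NRW := by
  intro d hd
  obtain ⟨C, hC1, hC⟩ := kil d hd
  refine ⟨C, hC1, ?_⟩
  intro L _ hL σ hσ ω A δ q u R N z hδ hCδ hδq hcard hR k hk
  have hδ1 : δ ≤ 1 := by nlinarith
  have hsg : ∀ x, 0 ≤ (Pi.single z (1 : ℝ) : (Fin d → ZMod L) → ℝ) x := by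
    intro x
    rw [Pi.single_apply]
    split_ifs <;> norm_num
  obtain ⟨h1, h2⟩ := hC L hL σ hσ ω A δ q u R z hδ hCδ hδq
  have h3 : 1 / 2 ≤ ∑ y, kv (ed ∘ σ) ω A δ (bal z R) (Pi.single z 1) (u * (q * ms d L)) y := by
    have h4 : Real.exp (C * (u + ((Finset.range (u * (q * ms d L))).filter fun k => ω k = true ∧
      tch (ed ∘ σ) ω A k ∧ ((ed (σ k)).1 ∈ bal z R ∨ (ed (σ k)).2 ∈ bal z R)).card) - R) ≤
        1 / 2 := by
      have h5 : (((Finset.range (u * (q * ms d L))).filter fun k => ω k = true ∧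
        tch (ed ∘ σ) ω A k ∧ ((ed (σ k)).1 ∈ bal z R ∨ (ed (σ k)).2 ∈ bal z R)).card : ℝ) ≤ N := by
        exact_mod_cast hcard
      have h6 : C * (u + ((Finset.range (u * (q * ms d L))).filter fun k => ω k = true ∧
        tch (ed ∘ σ) ω A k ∧ ((ed (σ k)).1 ∈ bal z R ∨ (ed (σ k)).2 ∈ bal z R)).card) - R ≤
          -1 := by
        have h7 : C * ((u : ℝ) + (((Finset.range (u * (q * ms d L))).filter fun k => ω k = true ∧
          tch (ed ∘ σ) ω A k ∧ ((ed (σ k)).1 ∈ bal z R ∨ (ed (σ k)).2 ∈ bal z R)).card : ℝ)) ≤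
            C * (u + N) := mul_le_mul_of_nonneg_left (by linarith) (by linarith)
        have h8 : C * ((u : ℝ) + N + 1) = C * (u + N) + C := by ring
        linarith
      refine (Real.exp_le_exp.2 h6).trans ?_
      have h9 : (2 : ℝ) ≤ Real.exp 1 := by
        have := Real.add_one_le_exp (1 : ℝ)
        linarith
      rw [Real.exp_neg, one_div]
      exact inv_anti₀ (by norm_num) h9
    linarith
  have h4 := kv_mass (ed ∘ σ) ω A δ (bal z R) hδ.le hδ1 (Pi.single z 1) hsg hk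
  have h5 : ∀ y, y ∉ bal z R → kv (ed ∘ σ) ω A δ (bal z R) (Pi.single z 1) k y = 0 := by
    intro y hy
    cases k with
    | zero =>
      change (Pi.single z (1 : ℝ) : (Fin d → ZMod L) → ℝ) y = 0
      rw [Pi.single_apply, if_neg]
      rintro rfl
      apply hy
      unfold bal
      rw [Finset.mem_filter]
      exact ⟨Finset.mem_univ _, by rw [td_self]; omega⟩
    | succ k =>
      change (if y ∈ bal z R then _ else _) = _
      rw [if_neg hy]
  have h6 : ∑ y, kv (ed ∘ σ) ω A δ (bal z R) (Pi.single z 1) k y =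
      ∑ y ∈ bal z R, kv (ed ∘ σ) ω A δ (bal z R) (Pi.single z 1) k y := by
    symm
    exact Finset.sum_subset (Finset.subset_univ _) fun y _ hy => h5 y hy
  have h7 : ∑ y ∈ bal z R, kv (ed ∘ σ) ω A δ (bal z R) (Pi.single z 1) k y ≤
      ∑ y ∈ bal z R, TT (ed ∘ σ) ω A δ k z y :=
    Finset.sum_le_sum fun y _ => (kv_le_TT (ed ∘ σ) ω A δ (bal z R) hδ.le hδ1 z k y).1
  linarith

end Q299.PL
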