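import Pool.Agent.Q299.PL.Tool

/-!
# Project LC2 (helper295), job PTH: two points of a ball with isolated holes
-/

set_option autoImplicit false

namespace Q299.PL

open Finset Q292.LC Q295.PL Pool.Agent.Q151.LC

variable {d L : ℕ} [NeZero L]

/-- The term of an edge. -/
noncomputable def tm (z : Fin d → ZMod L) (R : ℕ) (H : Finset (Fin d → ZMod L))
    (f : (Fin d → ZMod L) → ℝ) (i : (Fin d → ZMod L) × Fin d) : ℝ :=
  if (ed i).1 ∈ bal z (R + 3) \ H ∧ (ed i).2 ∈ bal z (R + 3) \ H then
      (f (ed i).1 - f (ed i).2) ^ 2 else 0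

theorem tm_nonneg (z : Fin d → ZMod L) (R : ℕ) (H : Finset (Fin d → ZMod L))
    (f : (Fin d → ZMod L) → ℝ) (i : (Fin d → ZMod L) × Fin d) : 0 ≤ tm z R H f i := by
  unfold tm
  split_ifs
  · exact sq_nonneg _
  · exact le_rfl

/-- The local sum. -/
noncomputable def lsm (z : Fin d → ZMod L) (R : ℕ) (H : Finset (Fin d → ZMod L))
    (f : (Fin d → ZMod L) → ℝ) (p : Fin d → ZMod L) : ℝ :=
  ∑ i : (Fin d → ZMod L) × Fin d, if td p i.1 ≤ 4 then tm z R H f i else 0

theorem lsm_nonneg (z : Fin d → ZMod L) (R : ℕ) (H : Finset (Fin d → ZMod L))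
    (f : (Fin d → ZMod L) → ℝ) (p : Fin d → ZMod L) : 0 ≤ lsm z R H f p := by
  unfold lsm
  refine Finset.sum_nonneg fun i _ => ?_
  split_ifs
  · exact tm_nonneg _ _ _ _ _
  · exact le_rfl

/-- An edge near `p` which avoids the holes. -/
theorem edge_le (z : Fin d → ZMod L) (R : ℕ) (H : Finset (Fin d → ZMod L))
    (f : (Fin d → ZMod L) → ℝ) (p u : Fin d → ZMod L) (i : Fin d)
    (h1 : u ∈ bal z (R + 3)) (h2 : u ∉ H) (h3 : u + Pi.single i 1 ∈ bal z (R + 3))
    (h4 : u + Pi.single i 1 ∉ H) (h5 : td p u ≤ 4) :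
    |f u - f (u + Pi.single i 1)| ≤ √(lsm z R H f p) := by
  apply Real.abs_le_sqrt
  have h6 : (if td p u ≤ 4 then tm z R H f (u, i) else 0) ≤ lsm z R H f p := by
    unfold lsm
    refine Finset.single_le_sum (f := fun i : (Fin d → ZMod L) × Fin d =>
      if td p i.1 ≤ 4 then tm z R H f i else 0) (fun j _ => ?_) (mem_univ (u, i))
    split_ifs
    · exact tm_nonneg _ _ _ _ _
    · exact le_rfl
  rw [if_pos h5] at h6
  refine le_trans (le_of_eq ?_) h6
  unfold tm
  rw [ed_eq, if_pos]
  exact ⟨mem_sdiff.2 ⟨h1, h2⟩, mem_sdiff.2 ⟨h3, h4⟩⟩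

/-- The sum of all local sums. -/
theorem sum_lsm (z : Fin d → ZMod L) (R : ℕ) (H : Finset (Fin d → ZMod L))
    (f : (Fin d → ZMod L) → ℝ) :
    ∑ i : (Fin d → ZMod L) × Fin d, lsm z R H f i.1 ≤
      d * (9 : ℝ) ^ d * ∑ i, tm z R H f i := by
  have h1 : ∑ i : (Fin d → ZMod L) × Fin d, lsm z R H f i.1 =
      ∑ j : (Fin d → ZMod L) × Fin d, ∑ i : (Fin d → ZMod L) × Fin d,
        if td i.1 j.1 ≤ 4 then tm z R H f j else 0 := by
    unfold lsm
    rw [Finset.sum_comm]
  rw [h1, Finset.mul_sum]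
  refine Finset.sum_le_sum fun j _ => ?_
  rw [Fintype.sum_prod_type]
  have h0 : ∀ x : Fin d → ZMod L, ∑ c : Fin d, (if td (x, c).1 j.1 ≤ 4 then tm z R H f j
      else 0) = d * (if td x j.1 ≤ 4 then tm z R H f j else 0) := by
    intro x
    by_cases h : td x j.1 ≤ 4
    · simp [h]
    · simp [h]
  rw [Finset.sum_congr rfl fun x _ => h0 x]
  rw [← Finset.mul_sum, ← Finset.sum_filter, Finset.sum_const, nsmul_eq_mul]
  have h2 : (univ.filter fun x : Fin d → ZMod L => td x j.1 ≤ 4) = bal j.1 4 := by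
    unfold bal
    refine Finset.filter_congr fun x _ => ?_
    rw [td_comm]
  have h3 : ((bal j.1 4).card : ℝ) ≤ 9 ^ d := by
    exact_mod_cast card_bal_le j.1 4
  rw [h2, ← mul_assoc]
  exact mul_le_mul_of_nonneg_right (mul_le_mul_of_nonneg_left h3 (Nat.cast_nonneg _))
    (tm_nonneg _ _ _ _ _)

theorem bal_mono (z : Fin d → ZMod L) {a b : ℕ} (h : a ≤ b) : bal z a ⊆ bal z b := by
  intro x hx
  rw [mem_bal] at hx ⊢
  omega

/-- The radial induction. -/
theorem radial (z : Fin d → ZMod L) (G : (Fin d → ZMod L) → ℝ) (k : ℕ) :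
    ∀ x, td z x ≤ k → (G x - G z) ^ 2 ≤ k * ∑ i : (Fin d → ZMod L) × Fin d,
      (if (ed i).1 ∈ bal z k ∧ (ed i).2 ∈ bal z k then (G (ed i).1 - G (ed i).2) ^ 2 else 0) := by
  have hnn : ∀ k, 0 ≤ ∑ i : (Fin d → ZMod L) × Fin d,
      (if (ed i).1 ∈ bal z k ∧ (ed i).2 ∈ bal z k then (G (ed i).1 - G (ed i).2) ^ 2
        else 0) := by
    intro k
    refine Finset.sum_nonneg fun i _ => ?_
    split_ifs
    · exact sq_nonneg _
    · exact le_rfl
  induction k with
  | zero =>
    intro x hx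
    have : z = x := td_eq_zero (Nat.le_zero.1 hx)
    subst this
    simp
  | succ k ih =>
    intro x hx
    set E : ℕ → ℝ := fun k => ∑ i : (Fin d → ZMod L) × Fin d,
      (if (ed i).1 ∈ bal z k ∧ (ed i).2 ∈ bal z k then (G (ed i).1 - G (ed i).2) ^ 2 else 0)
      with hE
    change (G x - G z) ^ 2 ≤ ((k + 1 : ℕ) : ℝ) * E (k + 1)
    have ih' : ∀ x, td z x ≤ k → (G x - G z) ^ 2 ≤ k * E k := ih
    have hE0 : 0 ≤ E k := hnn k
    have hterm : ∀ i : (Fin d → ZMod L) × Fin d,
        (if (ed i).1 ∈ bal z k ∧ (ed i).2 ∈ bal z k then (G (ed i).1 - G (ed i).2) ^ 2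
          else 0) ≤ (if (ed i).1 ∈ bal z (k + 1) ∧ (ed i).2 ∈ bal z (k + 1) then
            (G (ed i).1 - G (ed i).2) ^ 2 else 0) := by
      intro i
      by_cases h : (ed i).1 ∈ bal z k ∧ (ed i).2 ∈ bal z k
      · rw [if_pos h, if_pos ⟨bal_mono z (Nat.le_succ k) h.1, bal_mono z (Nat.le_succ k) h.2⟩]
      · rw [if_neg h]
        split_ifs
        · exact sq_nonneg _
        · exact le_rfl
    have hmono : E k ≤ E (k + 1) := Finset.sum_le_sum fun i _ => hterm i
    by_cases hk : td z x ≤ k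
    · refine (ih' x hk).trans ?_
      push_cast
      have hk0 : (0 : ℝ) ≤ k := Nat.cast_nonneg k
      nlinarith
    · have hx' : td z x = k + 1 := by omega
      obtain ⟨x', i, h1, h2⟩ := closer z x hx'
      -- the edge between
      obtain ⟨j, hj1, hj2⟩ : ∃ j : (Fin d → ZMod L) × Fin d,
          (G (ed j).1 - G (ed j).2) ^ 2 = (G x - G x') ^ 2 ∧
          ((ed j).1 = x ∧ (ed j).2 = x' ∨ (ed j).1 = x' ∧ (ed j).2 = x) := by
        rcases h2 with h2 | h2
        · refine ⟨(x, i), ?_, Or.inl ?_⟩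
          · rw [ed_eq]
            simp only
            rw [← h2]
          · rw [ed_eq]
            exact ⟨rfl, h2.symm⟩
        · refine ⟨(x', i), ?_, Or.inr ?_⟩
          · rw [ed_eq]
            simp only
            rw [← h2]
            ring
          · rw [ed_eq]
            exact ⟨rfl, h2.symm⟩
      have hxin : x ∈ bal z (k + 1) := mem_bal.2 hx'.le
      have hxin' : x' ∈ bal z (k + 1) := mem_bal.2 (by omega)
      have hxout : x ∉ bal z k := fun h => hk (mem_bal.1 h)
      have h3 : E k + (G x - G x') ^ 2 ≤ E (k + 1) := by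
        rw [hE]
        simp only
        rw [← Finset.add_sum_erase _ _ (mem_univ j), ← Finset.add_sum_erase (s := univ) (a := j)
          (f := fun i => if (ed i).1 ∈ bal z (k + 1) ∧ (ed i).2 ∈ bal z (k + 1) then
            (G (ed i).1 - G (ed i).2) ^ 2 else 0) (mem_univ j)]
        have h4 : ∑ i ∈ univ.erase j, (if (ed i).1 ∈ bal z k ∧ (ed i).2 ∈ bal z k then
            (G (ed i).1 - G (ed i).2) ^ 2 else 0) ≤
            ∑ i ∈ univ.erase j, (if (ed i).1 ∈ bal z (k + 1) ∧ (ed i).2 ∈ bal z (k + 1) then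
            (G (ed i).1 - G (ed i).2) ^ 2 else 0) := Finset.sum_le_sum fun i _ => hterm i
        have h5 : ¬((ed j).1 ∈ bal z k ∧ (ed j).2 ∈ bal z k) := by
          rcases hj2 with h | h
          · rw [h.1]; exact fun h' => hxout h'.1
          · rw [h.2]; exact fun h' => hxout h'.2
        have h6 : (ed j).1 ∈ bal z (k + 1) ∧ (ed j).2 ∈ bal z (k + 1) := by
          rcases hj2 with h | h
          · rw [h.1, h.2]; exact ⟨hxin, hxin'⟩
          · rw [h.1, h.2]; exact ⟨hxin', hxin⟩
        rw [if_neg h5, if_pos h6, hj1]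
        linarith
      have h7 := ih' x' h1
      have h8 : (G x - G z) ^ 2 ≤ (k + 1) * ((G x - G x') ^ 2 + E k) := by
        have h9 : G x - G z = (G x - G x') + (G x' - G z) := by ring
        rw [h9]
        set a := G x - G x'
        set b := G x' - G z
        rcases Nat.eq_zero_or_pos k with hk0 | hk0
        · subst hk0
          simp only [Nat.cast_zero, zero_mul] at h7 ⊢
          have hb : b = 0 := by
            have : b ^ 2 = 0 := le_antisymm h7 (sq_nonneg _)
            exact pow_eq_zero_iff two_ne_zero |>.1 this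
          rw [hb]
          nlinarith
        · have hk1 : (0 : ℝ) < k := by exact_mod_cast hk0
          have h10 : 0 ≤ k * (k * a ^ 2 - 2 * a * b + E k) := by
            have : k * (k * a ^ 2 - 2 * a * b + E k) = (k * a - b) ^ 2 + (k * E k - b ^ 2) := by
              ring
            rw [this]
            have := sq_nonneg (k * a - b)
            linarith
          have h11 : 0 ≤ k * a ^ 2 - 2 * a * b + E k := by
            by_contra hneg
            push Not at hneg
            have := mul_neg_of_pos_of_neg hk1 hneg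
            linarith
          nlinarith
      refine h8.trans ?_
      push_cast
      have hk0 : (0 : ℝ) ≤ (k : ℝ) + 1 := by positivity
      apply mul_le_mul_of_nonneg_left _ hk0
      linarith

/-- Job PTH. -/
theorem pth : S_PTH := by
  intro d hd
  refine ⟨4 * (16 * (d * (9 : ℝ) ^ d)), ?_, ?_⟩
  · have h1 : (1 : ℝ) ≤ d := by exact_mod_cast (by omega : 1 ≤ d)
    have h2 : (1 : ℝ) ≤ 9 ^ d := one_le_pow₀ (by norm_num)
    nlinarith
  intro L _ hL z R H f hsep x hx y hy
  rw [mem_sdiff, mem_bal] at hx hy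
  let e1 : Fin d := ⟨0, by omega⟩
  let e2 : Fin d := ⟨1, by omega⟩
  have he12 : e1 ≠ e2 := by
    intro h
    have := congrArg Fin.val h
    simp [e1, e2] at this
  set G : (Fin d → ZMod L) → ℝ := fun p => if p ∈ H then f (p + Pi.single e1 1) else f p with hG
  have h1ne := one_ne hL
  have hn1 : (-1 : ZMod L) ≠ 0 := neg_ne_zero.2 h1ne
  -- signs
  have hsg : ∀ a : ZMod L, a = 1 ∨ a = -1 → a.valMinAbs.natAbs = 1 ∧ a ≠ 0 := by
    rintro a (rfl | rfl)
    · exact ⟨one_nat hL, h1ne⟩
    · rw [ZMod.natAbs_valMinAbs_neg]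
      exact ⟨one_nat hL, hn1⟩
  -- one edge
  have hedge : ∀ (p q u : Fin d → ZMod L) (i : Fin d) (a : ZMod L), (a = 1 ∨ a = -1) →
      u ∈ bal z (R + 3) → u ∉ H → u + Pi.single i a ∈ bal z (R + 3) →
      u + Pi.single i a ∉ H → td p u ≤ 4 → td p (u + Pi.single i a) ≤ 4 →
      |f u - f (u + Pi.single i a)| ≤ √(lsm z R H f p) := by
    intro p q u i a ha h1 h2 h3 h4 h5 h6
    rcases ha with rfl | rfl
    · exact edge_le z R H f p u i h1 h2 h3 h4 h5
    · have e : u + Pi.single i (-1) + Pi.single i 1 = u := by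
        rw [add_assoc, ← Pi.single_add]
        simp
      have := edge_le z R H f p (u + Pi.single i (-1)) i h3 h4 (by rw [e]; exact h1)
        (by rw [e]; exact h2) h6
      rw [e, abs_sub_comm] at this
      exact this
  -- points near a hole
  have hnear : ∀ p ∈ H, p ∈ bal z R → ∀ u, td p u ≤ 2 → u ≠ p →
      u ∈ bal z (R + 3) ∧ u ∉ H := by
    intro p hp hpR u hu hup
    rw [mem_bal] at hpR
    have h1 := td_tri z p u
    have h2 : u ∈ bal z (R + 3) := mem_bal.2 (by omega)
    refine ⟨h2, fun huH => ?_⟩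
    have := hsep p (mem_inter.2 ⟨hp, mem_bal.2 (by omega)⟩) u (mem_inter.2 ⟨huH, h2⟩) (Ne.symm hup)
    omega
  have ht1 : ∀ (p : Fin d → ZMod L) (i : Fin d) (a : ZMod L), (a = 1 ∨ a = -1) →
      td p (p + Pi.single i a) = 1 := fun p i a ha => by rw [td_single, (hsg a ha).1]
  have hnep : ∀ (p : Fin d → ZMod L) (i : Fin d) (a : ZMod L), (a = 1 ∨ a = -1) →
      p + Pi.single i a ≠ p := by
    intro p i a ha h
    have := ht1 p i a ha
    rw [h, td_self] at this
    omega
  -- two edges around a hole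
  have htwo : ∀ p ∈ H, p ∈ bal z R → ∀ q, td q p ≤ 1 → ∀ (i j : Fin d) (a b : ZMod L),
      (a = 1 ∨ a = -1) → (b = 1 ∨ b = -1) → i ≠ j →
      |f (p + Pi.single i a) - f (p + Pi.single j b)| ≤ 2 * √(lsm z R H f q) := by
    intro p hp hpR q hq i j a b ha hb hij
    have a1 := ht1 p i a ha
    have a2 := ht1 p j b hb
    have a3 := ht1 (p + Pi.single i a) j b hb
    have a4 := ht1 (p + Pi.single j b) i a ha
    have ecomm : p + Pi.single j b + Pi.single i a = p + Pi.single i a + Pi.single j b := by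
      exact add_right_comm _ _ _
    have hne2 : p + Pi.single i a + Pi.single j b ≠ p := by
      intro h
      have h1 := congrFun h i
      simp only [Pi.add_apply, Pi.single_eq_same, Pi.single_eq_of_ne hij, add_zero] at h1
      exact (hsg a ha).2 (by simpa using h1)
    have b1 := td_tri p (p + Pi.single i a) (p + Pi.single i a + Pi.single j b)
    obtain ⟨c1, c2⟩ := hnear p hp hpR (p + Pi.single i a) (by omega) (hnep p i a ha)
    obtain ⟨c3, c4⟩ := hnear p hp hpR (p + Pi.single j b) (by omega) (hnep p j b hb)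
    obtain ⟨c5, c6⟩ := hnear p hp hpR (p + Pi.single i a + Pi.single j b) (by omega) hne2
    have d1 := td_tri q p (p + Pi.single i a)
    have d2 := td_tri q p (p + Pi.single j b)
    have d3 := td_tri q p (p + Pi.single i a + Pi.single j b)
    have g1 := hedge q q (p + Pi.single i a) j b hb c1 c2 c5 c6 (by omega) (by omega)
    have g2 := hedge q q (p + Pi.single j b) i a ha c3 c4 (by rw [ecomm]; exact c5)
      (by rw [ecomm]; exact c6) (by omega) (by rw [ecomm]; omega)
    rw [ecomm] at g2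
    rw [abs_le] at g1 g2 ⊢
    constructor <;> linarith [g1.1, g1.2, g2.1, g2.2]
  -- all neighbours of a hole
  have hfour : ∀ p ∈ H, p ∈ bal z R → ∀ q, td q p ≤ 1 → ∀ (i : Fin d) (a : ZMod L),
      (a = 1 ∨ a = -1) →
      |f (p + Pi.single e1 1) - f (p + Pi.single i a)| ≤ 4 * √(lsm z R H f q) := by
    intro p hp hpR q hq i a ha
    have hs := Real.sqrt_nonneg (lsm z R H f q)
    by_cases hi : i = e1
    · rw [hi]
      have g1 := htwo p hp hpR q hq e1 e2 1 1 (Or.inl rfl) (Or.inl rfl) he12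
      have g2 := htwo p hp hpR q hq e2 e1 1 a (Or.inl rfl) ha (Ne.symm he12)
      rw [abs_le] at g1 g2 ⊢
      constructor <;> linarith [g1.1, g1.2, g2.1, g2.2]
    · have g1 := htwo p hp hpR q hq e1 i 1 a (Or.inl rfl) ha (Ne.symm hi)
      linarith
  -- every edge of the ball
  have hall : ∀ i : (Fin d → ZMod L) × Fin d, (if (ed i).1 ∈ bal z R ∧ (ed i).2 ∈ bal z R then
      (G (ed i).1 - G (ed i).2) ^ 2 else 0) ≤ 16 * lsm z R H f i.1 := by
    rintro ⟨p, i⟩
    have hl := lsm_nonneg z R H f p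
    rw [ed_eq]
    simp only
    split_ifs with h
    · obtain ⟨hp, hp'⟩ := h
      have key : |G p - G (p + Pi.single i 1)| ≤ 4 * √(lsm z R H f p) := by
        have hs := Real.sqrt_nonneg (lsm z R H f p)
        by_cases h1 : p ∈ H
        · have h2 : p + Pi.single i 1 ∉ H := (hnear p h1 hp _ (by rw [td_e hL]; omega)
            (hnep p i 1 (Or.inl rfl))).2
          have e1' : G p = f (p + Pi.single e1 1) := if_pos h1
          have e2' : G (p + Pi.single i 1) = f (p + Pi.single i 1) := if_neg h2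
          rw [e1', e2']
          exact hfour p h1 hp p (by rw [td_self]; omega) i 1 (Or.inl rfl)
        · have e1' : G p = f p := if_neg h1
          by_cases h2 : p + Pi.single i 1 ∈ H
          · have e2' : G (p + Pi.single i 1) = f (p + Pi.single i 1 + Pi.single e1 1) := if_pos h2
            have e3 : p + Pi.single i 1 + Pi.single i (-1) = p := by
              rw [add_assoc, ← Pi.single_add]
              simp
            have := hfour _ h2 hp' p (by rw [td_e hL]) i (-1) (Or.inr rfl)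
            rw [e3] at this
            rw [e1', e2', abs_sub_comm]
            exact this
          · have e2' : G (p + Pi.single i 1) = f (p + Pi.single i 1) := if_neg h2
            rw [e1', e2']
            have := edge_le z R H f p p i (bal_mono z (by omega) hp) h1
              (bal_mono z (by omega) hp') h2 (by rw [td_self]; omega)
            linarith
      have h3 : (G p - G (p + Pi.single i 1)) ^ 2 ≤ (4 * √(lsm z R H f p)) ^ 2 := by
        rw [← sq_abs]
        exact pow_le_pow_left₀ (abs_nonneg _) key 2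
      rw [mul_pow, Real.sq_sqrt hl] at h3
      linarith
    · positivity
  set E : ℝ := ∑ i, tm z R H f i with hE
  have hE0 : 0 ≤ E := Finset.sum_nonneg fun i _ => tm_nonneg _ _ _ _ _
  have hGE : ∑ i : (Fin d → ZMod L) × Fin d, (if (ed i).1 ∈ bal z R ∧ (ed i).2 ∈ bal z R then
      (G (ed i).1 - G (ed i).2) ^ 2 else 0) ≤ 16 * (d * (9 : ℝ) ^ d) * E := by
    refine (Finset.sum_le_sum fun i _ => hall i).trans ?_
    rw [← Finset.mul_sum]
    have := sum_lsm z R H f
    linarith
  have hx1 := radial z G R x hx.1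
  have hy1 := radial z G R y hy.1
  have hGx : G x = f x := if_neg hx.2
  have hGy : G y = f y := if_neg hy.2
  rw [hGx] at hx1
  rw [hGy] at hy1
  have hR0 : (0 : ℝ) ≤ R := Nat.cast_nonneg R
  have hb : (R : ℝ) * ∑ i : (Fin d → ZMod L) × Fin d,
      (if (ed i).1 ∈ bal z R ∧ (ed i).2 ∈ bal z R then (G (ed i).1 - G (ed i).2) ^ 2 else 0) ≤
      (R + 1) * (16 * (d * (9 : ℝ) ^ d) * E) := by
    have h1 : 0 ≤ 16 * (d * (9 : ℝ) ^ d) * E := by positivity
    have h2 := mul_le_mul_of_nonneg_left hGE hR0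
    linarith
  have hfin : (f x - f y) ^ 2 ≤ 2 * (f x - G z) ^ 2 + 2 * (f y - G z) ^ 2 := by
    nlinarith [sq_nonneg ((f x - G z) + (f y - G z))]
  have hsum : ∑ i : (Fin d → ZMod L) × Fin d,
      (if (ed i).1 ∈ bal z (R + 3) \ H ∧ (ed i).2 ∈ bal z (R + 3) \ H then
      (f (ed i).1 - f (ed i).2) ^ 2 else 0) = E := rfl
  rw [hsum]
  calc (f x - f y) ^ 2 ≤ 4 * ((R + 1) * (16 * (d * (9 : ℝ) ^ d) * E)) := by linarith
    _ = _ := by ring

end Q299.PL
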