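import Pool.Agent.Q299.PL.BWB

/-!
# Project LC2 (helper295), job SWB: one sweep without particle moves in a ball

Adapted from `Pool/Agent/Q53/LC/Swd.lean` (helper53), with the order of the steps reversed.
-/

set_option autoImplicit false

namespace Q299.PL

open Finset Equiv Matrix Q292.LC Q295.PL Pool.Agent.Q53.LC

/-- Job SWB. -/
theorem swb : S_SWB := by
  intro d L _ hd hL σ hσ ω A δ z R F hδ hδ2 hmove
  obtain ⟨e, he⟩ : ∃ e : ℕ → (Fin d → ZMod L) × (Fin d → ZMod L), e = ed ∘ σ := ⟨_, rfl⟩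
  have hek : ∀ k, e k = ed (σ k) := fun k => by rw [he]; rfl
  rw [← he] at hmove ⊢
  simp only [← hek] at hmove ⊢
  have hd' : (1 : ℝ) ≤ d := by exact_mod_cast hd
  obtain ⟨M, hM⟩ : ∃ M, M = ms d L := ⟨_, rfl⟩
  rw [← hM] at hmove ⊢
  obtain ⟨B, hB⟩ : ∃ B, B = bal z R := ⟨_, rfl⟩
  rw [← hB]
  have hBR : ∀ y, y ∈ B → y ∈ bal z (R + 1) := by
    intro y hy
    rw [hB] at hy
    unfold bal at hy ⊢
    rw [Finset.mem_filter] at hy ⊢
    exact ⟨hy.1, by omega⟩
  have hadj : ∀ k, (e k).1 ∈ B ∨ (e k).2 ∈ B →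
      (e k).1 ∈ bal z (R + 1) ∧ (e k).2 ∈ bal z (R + 1) := by
    intro k hk
    rw [hek] at hk ⊢
    obtain ⟨h1, h2⟩ := td_step hL z (σ k).1 (σ k).2
    rcases hk with hk | hk
    · refine ⟨hBR _ hk, ?_⟩
      rw [hB] at hk
      unfold bal at hk ⊢
      rw [Finset.mem_filter] at hk ⊢
      refine ⟨Finset.mem_univ _, ?_⟩
      have h3 : td z (ed (σ k)).2 ≤ td z (ed (σ k)).1 + 1 := h1
      omega
    · refine ⟨?_, hBR _ hk⟩
      rw [hB] at hk
      unfold bal at hk ⊢
      rw [Finset.mem_filter] at hk ⊢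
      refine ⟨Finset.mem_univ _, ?_⟩
      have h3 : td z (ed (σ k)).1 ≤ td z (ed (σ k)).2 + 1 := h2
      omega
  -- particles near the ball do not move
  have hstay : ∀ j ≤ M, ∀ a ∈ A, (gp e ω j a ∈ bal z (R + 1) ∨ a ∈ bal z (R + 1)) →
      gp e ω j a = a := by
    intro j
    induction j with
    | zero =>
      intro _ a _ _
      rfl
    | succ j ih =>
      intro hj a ha h
      have h1 : gp e ω (j + 1) a = if ω j then swap (e j).1 (e j).2 (gp e ω j a)
          else gp e ω j a := by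
        change (if ω j then swap (e j).1 (e j).2 * gp e ω j else gp e ω j) a = _
        split_ifs <;> rfl
      rw [h1] at h ⊢
      split_ifs at h ⊢ with h2
      · by_cases h3 : gp e ω j a = (e j).1 ∨ gp e ω j a = (e j).2
        · exfalso
          obtain ⟨h4, h5⟩ := hmove j (by omega) h2 ⟨a, ha, h3⟩
          rcases h with h | h
          · rcases h3 with h3 | h3
            · rw [h3, swap_apply_left] at h
              exact h5 h
            · rw [h3, swap_apply_right] at h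
              exact h4 h
          · have h6 := ih (by omega) a ha (Or.inr h)
            rw [h6] at h3
            rcases h3 with h3 | h3
            · rw [← h3] at h4
              exact h4 h
            · rw [← h3] at h5
              exact h5 h
        · rw [not_or] at h3
          rw [swap_apply_of_ne_of_ne h3.1 h3.2] at h ⊢
          exact ih (by omega) a ha h
      · exact ih (by omega) a ha h
  have hfree : ∀ k < M, (e k).1 ∉ A → (e k).2 ∉ A →
      ((e k).1 ∈ bal z (R + 1) ∧ (e k).2 ∈ bal z (R + 1)) → ¬ tch e ω A k := by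
    rintro k hk h1 h2 ⟨h3, h4⟩ ⟨a, ha, h5⟩
    rcases h5 with h5 | h5
    · have h6 := hstay k hk.le a ha (Or.inl (by rw [h5]; exact h3))
      rw [h5] at h6
      rw [h6] at h1
      exact h1 ha
    · have h6 := hstay k hk.le a ha (Or.inl (by rw [h5]; exact h4))
      rw [h5] at h6
      rw [h6] at h2
      exact h2 ha
  obtain ⟨G, hG⟩ : ∃ G : ℕ → (Fin d → ZMod L) → ℝ, G = bw e ω A δ M F := ⟨_, rfl⟩
  obtain ⟨w, hw⟩ : ∃ w : ℕ → ℝ, ∀ j, w j = if (e (M - 1 - j)).1 ∈ bal z (R + 1) ∧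
      (e (M - 1 - j)).2 ∈ bal z (R + 1) then (if tch e ω A (M - 1 - j) then 0 else
        |G j (e (M - 1 - j)).1 - G j (e (M - 1 - j)).2|) else 0 := ⟨_, fun _ => rfl⟩
  have hw0 : ∀ j, 0 ≤ w j := by
    intro j
    rw [hw]
    split_ifs
    · exact le_rfl
    · exact abs_nonneg _
    · exact le_rfl
  have hw2 : ∀ j, (if (e (M - 1 - j)).1 ∈ bal z (R + 1) ∧ (e (M - 1 - j)).2 ∈ bal z (R + 1) then
      dsp e ω A δ M F j else 0) = (w j) ^ 2 := by
    intro j
    rw [hw]
    unfold dsp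
    rw [← hG]
    split_ifs
    · simp
    · rw [sq_abs]
    · simp
  simp only [hw2]
  -- variation
  have hvar1 : ∀ j < M, ∀ y ∈ B, |G j y - G (j + 1) y| ≤ δ * (inc (e (M - 1 - j)) y * w j) := by
    intro j hj y hy
    obtain ⟨k, hk⟩ : ∃ k, k = M - 1 - j := ⟨_, rfl⟩
    have hkM : k < M := by omega
    rw [← hk]
    have hr : 0 ≤ δ * (inc (e k) y * w j) :=
      mul_nonneg hδ.le (mul_nonneg (inc_nonneg _ _) (hw0 j))
    have h0 : G (j + 1) y = (Mx e ω A δ k *ᵥ G j) y := by
      rw [hG, hk]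
      rfl
    rw [h0, mulVec_Mx]
    by_cases h5 : (e k).1 = y ∨ (e k).2 = y
    · have hB2 : (e k).1 ∈ bal z (R + 1) ∧ (e k).2 ∈ bal z (R + 1) := by
        apply hadj
        rcases h5 with h5 | h5
        · exact Or.inl (h5 ▸ hy)
        · exact Or.inr (h5 ▸ hy)
      split_ifs with h1 h2
      · exact absurd hB2.1 (hmove k hkM h2 h1).1
      · rw [sub_self, abs_zero]
        exact hr
      · have h3 : w j = |G j (e k).1 - G j (e k).2| := by
          rw [hw, ← hk, if_pos hB2, if_neg h1]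
        have h4 : G j y - ((1 - δ) * G j y + δ * G j (swap (e k).1 (e k).2 y)) =
            δ * (G j y - G j (swap (e k).1 (e k).2 y)) := by ring
        rw [h4, abs_mul, abs_of_pos hδ]
        apply mul_le_mul_of_nonneg_left _ hδ.le
        rcases h5 with h5 | h5
        · rw [← h5, swap_apply_left]
          unfold inc
          rw [if_pos rfl, h3]
          have : (0 : ℝ) ≤ if (e k).2 = (e k).1 then 1 else 0 := by split_ifs <;> norm_num
          nlinarith [abs_nonneg (G j (e k).1 - G j (e k).2)]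
        · rw [← h5, swap_apply_right]
          unfold inc
          rw [if_pos rfl, h3, abs_sub_comm]
          have : (0 : ℝ) ≤ if (e k).1 = (e k).2 then 1 else 0 := by split_ifs <;> norm_num
          nlinarith [abs_nonneg (G j (e k).1 - G j (e k).2)]
    · rw [not_or] at h5
      rw [swap_apply_of_ne_of_ne (Ne.symm h5.1) (Ne.symm h5.2)]
      split_ifs
      · rw [sub_self, abs_zero]
        exact hr
      · rw [sub_self, abs_zero]
        exact hr
      · have : G j y - ((1 - δ) * G j y + δ * G j y) = 0 := by ring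
        rw [this, abs_zero]
        exact hr
  obtain ⟨S, hS⟩ : ∃ S : (Fin d → ZMod L) → ℝ, ∀ y, S y =
      ∑ j ∈ Finset.range M, inc (e (M - 1 - j)) y * w j := ⟨_, fun _ => rfl⟩
  have hvar2 : ∀ n ≤ M, ∀ y ∈ B, |F y - G n y| ≤
      δ * ∑ j ∈ Finset.range n, inc (e (M - 1 - j)) y * w j := by
    intro n
    induction n with
    | zero =>
      intro _ y _
      rw [hG]
      simp [bw]
    | succ n ih =>
      intro hn y hy
      have h1 := ih (by omega) y hy
      have h2 := hvar1 n (by omega) y hy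
      rw [Finset.sum_range_succ, mul_add]
      have h3 : F y - G (n + 1) y = (F y - G n y) + (G n y - G (n + 1) y) := by ring
      rw [h3]
      exact (abs_add_le _ _).trans (add_le_add h1 h2)
  have hvar : ∀ n ≤ M, ∀ y ∈ B, |F y - G n y| ≤ δ * S y := by
    intro n hn y hy
    refine (hvar2 n hn y hy).trans (mul_le_mul_of_nonneg_left ?_ hδ.le)
    rw [hS]
    exact Finset.sum_le_sum_of_subset_of_nonneg (Finset.range_mono hn)
      fun j _ _ => mul_nonneg (inc_nonneg _ _) (hw0 j)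
  obtain ⟨Q, hQ⟩ : ∃ Q : (Fin d → ZMod L) → ℝ, ∀ y,
      Q y = ∑ j ∈ Finset.range M, inc (e (M - 1 - j)) y * (w j) ^ 2 := ⟨_, fun _ => rfl⟩
  have hdeg0 : ∀ y, ∑ j ∈ Finset.range M, inc (e j) y = 2 * d := by
    intro y
    rw [hM, he]
    exact sum_deg_sweep hσ y
  have hdeg : ∀ y, ∑ j ∈ Finset.range M, inc (e (M - 1 - j)) y = 2 * d := by
    intro y
    rw [Finset.sum_range_reflect (fun j => inc (e j) y) M]
    exact hdeg0 y
  have hSQ : ∀ y, (S y) ^ 2 ≤ 2 * d * Q y := by
    intro y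
    rw [hS, hQ, ← hdeg y]
    apply Finset.sum_sq_le_sum_mul_sum_of_sq_le_mul
    · intro j _
      exact inc_nonneg _ _
    · intro j _
      exact mul_nonneg (inc_nonneg _ _) (sq_nonneg _)
    · intro j _
      exact le_of_eq (by ring)
  -- the terms
  have hterm : ∀ j < M, (if (e (M - 1 - j)).1 ∈ B \ A ∧ (e (M - 1 - j)).2 ∈ B \ A then
      (F (e (M - 1 - j)).1 - F (e (M - 1 - j)).2) ^ 2 else 0) ≤
      2 * (w j) ^ 2 + 8 * d * δ ^ 2 * (Q (e (M - 1 - j)).1 + Q (e (M - 1 - j)).2) := by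
    intro j hj
    obtain ⟨k, hk⟩ : ∃ k, k = M - 1 - j := ⟨_, rfl⟩
    have hkM : k < M := by omega
    rw [← hk]
    have hQ0 : ∀ y, 0 ≤ Q y := fun y => by
      rw [hQ]
      exact Finset.sum_nonneg fun j _ => mul_nonneg (inc_nonneg _ _) (sq_nonneg _)
    have hr : 0 ≤ 2 * (w j) ^ 2 + 8 * d * δ ^ 2 * (Q (e k).1 + Q (e k).2) := by
      have := hQ0 (e k).1
      have := hQ0 (e k).2
      positivity
    split_ifs with h1
    · rw [mem_sdiff, mem_sdiff] at h1
      have hB2 := hadj k (Or.inl h1.1.1)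
      have h3 := hfree k hkM h1.1.2 h1.2.2 hB2
      have h4 : w j = |G j (e k).1 - G j (e k).2| := by
        rw [hw, ← hk, if_pos hB2, if_neg h3]
      have h5 := hvar j hj.le (e k).1 h1.1.1
      have h6 := hvar j hj.le (e k).2 h1.2.1
      have h7 : |F (e k).1 - F (e k).2| ≤ w j + (δ * S (e k).1 + δ * S (e k).2) := by
        have h8 : F (e k).1 - F (e k).2 = (G j (e k).1 - G j (e k).2) +
            ((F (e k).1 - G j (e k).1) - (F (e k).2 - G j (e k).2)) := by ring
        rw [h8, h4]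
        refine (abs_add_le _ _).trans (add_le_add le_rfl ?_)
        exact (abs_sub _ _).trans (add_le_add h5 h6)
      have h8 : (F (e k).1 - F (e k).2) ^ 2 ≤ (w j + (δ * S (e k).1 + δ * S (e k).2)) ^ 2 := by
        rw [← sq_abs]
        exact pow_le_pow_left₀ (abs_nonneg _) h7 2
      have h9 := hSQ (e k).1
      have h10 := hSQ (e k).2
      have h11 : (w j + (δ * S (e k).1 + δ * S (e k).2)) ^ 2 ≤
          2 * (w j) ^ 2 + 4 * δ ^ 2 * ((S (e k).1) ^ 2 + (S (e k).2) ^ 2) := by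
        nlinarith [sq_nonneg (w j - (δ * S (e k).1 + δ * S (e k).2)),
          sq_nonneg (δ * S (e k).1 - δ * S (e k).2)]
      have h12 : 4 * δ ^ 2 * ((S (e k).1) ^ 2 + (S (e k).2) ^ 2) ≤
          4 * δ ^ 2 * (2 * d * Q (e k).1 + 2 * d * Q (e k).2) :=
        mul_le_mul_of_nonneg_left (add_le_add h9 h10) (by positivity)
      calc (F (e k).1 - F (e k).2) ^ 2 ≤ _ := h8
        _ ≤ _ := h11
        _ ≤ 2 * (w j) ^ 2 + 4 * δ ^ 2 * (2 * d * Q (e k).1 + 2 * d * Q (e k).2) := by linarith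
        _ = _ := by ring
    · exact hr
  obtain ⟨W, hW⟩ : ∃ W : ℝ, W = ∑ j ∈ Finset.range M, (w j) ^ 2 := ⟨_, rfl⟩
  have hQsum : ∑ j ∈ Finset.range M, (Q (e (M - 1 - j)).1 + Q (e (M - 1 - j)).2) =
      4 * d * W := by
    simp only [hQ]
    have h1 : ∀ k, ∑ j ∈ Finset.range M, inc (e (M - 1 - j)) (e k).1 * w j ^ 2 +
        ∑ j ∈ Finset.range M, inc (e (M - 1 - j)) (e k).2 * w j ^ 2 =
        ∑ j ∈ Finset.range M, (inc (e k) (e (M - 1 - j)).1 +
          inc (e k) (e (M - 1 - j)).2) * w j ^ 2 := by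
      intro k
      rw [← Finset.sum_add_distrib]
      refine Finset.sum_congr rfl fun j _ => ?_
      rw [← add_mul]
      congr 1
      unfold inc
      simp only [eq_comm (a := (e (M - 1 - j)).1), eq_comm (a := (e (M - 1 - j)).2)]
      ring
    simp only [h1]
    rw [Finset.sum_comm]
    have h2 : ∀ j, ∑ k ∈ Finset.range M, (inc (e (M - 1 - k)) (e (M - 1 - j)).1 +
        inc (e (M - 1 - k)) (e (M - 1 - j)).2) * w j ^ 2 = 4 * d * w j ^ 2 := by
      intro j
      rw [← Finset.sum_mul, Finset.sum_add_distrib, hdeg, hdeg]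
      ring
    simp only [h2]
    rw [← Finset.mul_sum, ← hW]
  have hW0 : 0 ≤ W := by
    rw [hW]
    exact Finset.sum_nonneg fun j _ => sq_nonneg _
  rw [← hW, ← sum_sweep hσ (fun i => if (ed i).1 ∈ B \ A ∧ (ed i).2 ∈ B \ A then
    (F (ed i).1 - F (ed i).2) ^ 2 else 0), ← hM]
  simp only [← hek]
  rw [← Finset.sum_range_reflect (fun k => if (e k).1 ∈ B \ A ∧ (e k).2 ∈ B \ A then
    (F (e k).1 - F (e k).2) ^ 2 else 0) M]
  have h1 : ∑ j ∈ Finset.range M, (if (e (M - 1 - j)).1 ∈ B \ A ∧ (e (M - 1 - j)).2 ∈ B \ A then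
      (F (e (M - 1 - j)).1 - F (e (M - 1 - j)).2) ^ 2 else 0) ≤
    ∑ j ∈ Finset.range M, (2 * (w j) ^ 2 +
      8 * d * δ ^ 2 * (Q (e (M - 1 - j)).1 + Q (e (M - 1 - j)).2)) := by
    refine Finset.sum_le_sum fun k hk => ?_
    exact hterm k (Finset.mem_range.1 hk)
  refine h1.trans ?_
  rw [Finset.sum_add_distrib, ← Finset.mul_sum, ← Finset.mul_sum, hQsum, ← hW]
  have h2 : (16 * d * δ) ^ 2 ≤ 1 := by
    have : 0 ≤ 16 * d * δ := by positivity
    nlinarith
  have h3 : 8 * d * δ ^ 2 * (4 * d * W) = (16 * d * δ) ^ 2 * W / 8 := by ring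
  rw [h3]
  nlinarith

end Q299.PL
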