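import Pool.Agent.Q295.PL.Stm
import Pool.Agent.Q151.LC.Tor

/-!
# Project LC2 (helper295): tools on the torus
-/

set_option autoImplicit false

namespace Q299.PL

open Finset Q292.LC Q295.PL Pool.Agent.Q151.LC

variable {d L : ℕ}

theorem upd_eq (x : Fin d → ZMod L) (i : Fin d) :
    Function.update x i (x i + 1) = x + Pi.single i 1 := by
  funext j
  by_cases h : j = i
  · subst h
    simp
  · simp [Function.update_of_ne h, Pi.single_eq_of_ne h]

theorem ed_eq (i : (Fin d → ZMod L) × Fin d) : ed i = (i.1, i.1 + Pi.single i.2 1) := by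
  unfold ed
  rw [upd_eq]

theorem one_nat (hL : 3 ≤ L) : (1 : ZMod L).valMinAbs.natAbs = 1 := by
  have := ZMod.valMinAbs_natCast_of_le_half (n := L) (a := 1) (by omega)
  rw [Nat.cast_one] at this
  rw [this]
  rfl

theorem one_ne (hL : 3 ≤ L) : (1 : ZMod L) ≠ 0 := by
  intro h
  have := one_nat hL
  rw [h, ZMod.valMinAbs_zero] at this
  simp at this

theorem td_single (p : Fin d → ZMod L) (i : Fin d) (a : ZMod L) :
    td p (p + Pi.single i a) = a.valMinAbs.natAbs := by
  unfold td
  rw [Finset.sum_eq_single i]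
  · rw [Pi.add_apply, Pi.single_eq_same, sub_add_cancel_left, ZMod.natAbs_valMinAbs_neg]
  · intro j _ hj
    rw [Pi.add_apply, Pi.single_eq_of_ne hj, add_zero, sub_self, ZMod.valMinAbs_zero]
    rfl
  · intro h
    exact absurd (Finset.mem_univ i) h

theorem td_e (hL : 3 ≤ L) (p : Fin d → ZMod L) (i : Fin d) : td p (p + Pi.single i 1) = 1 := by
  rw [td_single, one_nat hL]

theorem td_e' (hL : 3 ≤ L) (p : Fin d → ZMod L) (i : Fin d) :
    td p (p + Pi.single i (-1)) = 1 := by
  rw [td_single, ZMod.natAbs_valMinAbs_neg, one_nat hL]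

/-- A neighbour nearer to the center. -/
theorem closer {k : ℕ} (z x : Fin d → ZMod L) (h : td z x = k + 1) :
    ∃ x' i, td z x' ≤ k ∧ (x' = x + Pi.single i 1 ∨ x = x' + Pi.single i 1) := by
  have h0 : ∃ i, (z i - x i).valMinAbs ≠ 0 := by
    by_contra hcon
    push Not at hcon
    have : td z x = 0 := by
      unfold td
      exact Finset.sum_eq_zero fun i _ => by rw [hcon i]; rfl
    omega
  obtain ⟨i, hi⟩ := h0
  set m : ℤ := (z i - x i).valMinAbs with hm
  have hmc : ((m : ℤ) : ZMod L) = z i - x i := ZMod.coe_valMinAbs _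
  have hsplit : ∀ y : Fin d → ZMod L, td z y = (z i - y i).valMinAbs.natAbs +
      ∑ j ∈ Finset.univ.erase i, (z j - y j).valMinAbs.natAbs := by
    intro y
    unfold td
    rw [Finset.add_sum_erase _ (fun j => (z j - y j).valMinAbs.natAbs) (Finset.mem_univ i)]
  have hmin : ∀ (a : ZMod L) (t : ℤ), ((t : ℤ) : ZMod L) = a →
      a.valMinAbs.natAbs ≤ t.natAbs := by
    intro a t ht
    by_cases hL : L = 0
    · subst hL
      have : a = t := by rw [← ht]; rfl
      rw [this]
      exact le_rfl
    · have : NeZero L := ⟨hL⟩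
      apply ZMod.natAbs_min_of_le_div_two L
      · rw [ZMod.coe_valMinAbs, ht]
      · exact ZMod.natAbs_valMinAbs_le a
  rcases lt_or_gt_of_ne hi with hneg | hpos
  · -- `z i - x i` negative: step down
    refine ⟨x + Pi.single i (-1), i, ?_, Or.inr ?_⟩
    · have h1 := hsplit x
      have h2 := hsplit (x + Pi.single i (-1))
      have h3 : ∑ j ∈ Finset.univ.erase i,
          (z j - (x + Pi.single i (-1) : Fin d → ZMod L) j).valMinAbs.natAbs =
          ∑ j ∈ Finset.univ.erase i, (z j - x j).valMinAbs.natAbs := by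
        refine Finset.sum_congr rfl fun j hj => ?_
        rw [Pi.add_apply, Pi.single_eq_of_ne (Finset.ne_of_mem_erase hj), add_zero]
      have h4 : (z i - (x + Pi.single i (-1) : Fin d → ZMod L) i).valMinAbs.natAbs ≤
          (m + 1).natAbs := by
        apply hmin
        rw [Int.cast_add, hmc, Pi.add_apply, Pi.single_eq_same]
        push_cast
        ring
      rw [h3] at h2
      omega
    · rw [add_assoc, ← Pi.single_add]
      simp
  · refine ⟨x + Pi.single i 1, i, ?_, Or.inl rfl⟩
    have h1 := hsplit x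
    have h2 := hsplit (x + Pi.single i 1)
    have h3 : ∑ j ∈ Finset.univ.erase i,
        (z j - (x + Pi.single i 1 : Fin d → ZMod L) j).valMinAbs.natAbs =
        ∑ j ∈ Finset.univ.erase i, (z j - x j).valMinAbs.natAbs := by
      refine Finset.sum_congr rfl fun j hj => ?_
      rw [Pi.add_apply, Pi.single_eq_of_ne (Finset.ne_of_mem_erase hj), add_zero]
    have h4 : (z i - (x + Pi.single i 1 : Fin d → ZMod L) i).valMinAbs.natAbs ≤
        (m - 1).natAbs := by
      apply hmin
      rw [Int.cast_sub, hmc, Pi.add_apply, Pi.single_eq_same]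
      push_cast
      ring
    rw [h3] at h2
    omega

variable [NeZero L]

/-- Number of points of a ball. -/
theorem card_bal_le (v : Fin d → ZMod L) (m : ℕ) : (bal v m).card ≤ (2 * m + 1) ^ d := by
  have h1 : bal v m ⊆ Fintype.piFinset fun i : Fin d =>
      (univ.filter fun a : ZMod L => (v i - a).valMinAbs.natAbs ≤ m) := by
    intro x hx
    rw [mem_bal] at hx
    rw [Fintype.mem_piFinset]
    intro i
    rw [mem_filter]
    refine ⟨mem_univ _, ?_⟩
    have h2 : (v i - x i).valMinAbs.natAbs ≤ td v x :=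
      Finset.single_le_sum (f := fun j => (v j - x j).valMinAbs.natAbs)
        (fun j _ => Nat.zero_le _) (mem_univ i)
    omega
  refine (card_le_card h1).trans ?_
  rw [Fintype.card_piFinset]
  have h3 : ∀ i : Fin d, (univ.filter fun a : ZMod L => (v i - a).valMinAbs.natAbs ≤ m).card ≤
      2 * m + 1 := by
    intro i
    have h4 : (univ.filter fun a : ZMod L => (v i - a).valMinAbs.natAbs ≤ m).card ≤
        (Finset.Icc (-(m : ℤ)) m).card := by
      apply Finset.card_le_card_of_injOn (fun a => (v i - a).valMinAbs)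
      · intro a ha
        rw [mem_coe, mem_filter] at ha
        rw [mem_coe, mem_Icc]
        have := ha.2
        change -(m : ℤ) ≤ (v i - a).valMinAbs ∧ (v i - a).valMinAbs ≤ m
        omega
      · intro a _ b _ hab
        have := ZMod.injective_valMinAbs hab
        exact sub_right_injective this
    refine h4.trans ?_
    rw [Int.card_Icc]
    omega
  calc ∏ i : Fin d, (univ.filter fun a : ZMod L => (v i - a).valMinAbs.natAbs ≤ m).card
      ≤ ∏ _i : Fin d, (2 * m + 1) := Finset.prod_le_prod' fun i _ => h3 i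
    _ = (2 * m + 1) ^ d := by simp

end Q299.PL
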