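import Pool.Agent.Q299.PL.SWB
import Pool.Agent.Q299.PL.Tool
import Pool.Agent.Q151.LC.Smo

/-!
# Project LC2 (helper295), job WIN, part A: tools for the window inequality
-/

set_option autoImplicit false

namespace Q299.PL

open Finset Equiv Matrix Q292.LC Q295.PL Pool.Agent.Q151.LC

section gen

variable {V : Type} [DecidableEq V] [Fintype V]

omit [DecidableEq V] [Fintype V] in
/-- Difference of two averages. -/
theorem avg_diff (w w' F : V → ℝ) (B B' S : Finset V) (M : ℝ) (hw : ∀ z, 0 ≤ w z)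
    (hw' : ∀ z, 0 ≤ w' z) (hB : 0 < ∑ z ∈ B, w z) (hB' : 0 < ∑ z ∈ B', w' z)
    (hS : ∀ z ∈ B, w z ≠ 0 → z ∈ S) (hS' : ∀ z ∈ B', w' z ≠ 0 → z ∈ S)
    (hM0 : 0 ≤ M) (hM : ∀ z ∈ S, ∀ z' ∈ S, (F z - F z') ^ 2 ≤ M) :
    ((∑ z ∈ B, w z * F z) / (∑ z ∈ B, w z) - (∑ z ∈ B', w' z * F z) / (∑ z ∈ B', w' z)) ^ 2 ≤
      M := by
  set W := ∑ z ∈ B, w z with hW
  set W' := ∑ z ∈ B', w' z with hW'
  have hd : ∀ z ∈ B, ∀ z' ∈ B', w z * w' z' * |F z - F z'| ≤ w z * w' z' * √M := by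
    intro z hz z' hz'
    by_cases h1 : w z = 0
    · simp [h1]
    · by_cases h2 : w' z' = 0
      · simp [h2]
      · apply mul_le_mul_of_nonneg_left _ (mul_nonneg (hw z) (hw' z'))
        exact Real.abs_le_sqrt (hM z (hS z hz h1) z' (hS' z' hz' h2))
  have h1 : (∑ z ∈ B, w z * F z) / W - (∑ z ∈ B', w' z * F z) / W' =
      (∑ z ∈ B, ∑ z' ∈ B', w z * w' z' * (F z - F z')) / (W * W') := by
    have h2 : ∑ z ∈ B, ∑ z' ∈ B', w z * w' z' * (F z - F z') =
        (∑ z ∈ B, w z * F z) * W' - W * ∑ z ∈ B', w' z * F z := by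
      have h3 : ∀ z ∈ B, ∑ z' ∈ B', w z * w' z' * (F z - F z') =
          w z * F z * W' - w z * ∑ z' ∈ B', w' z' * F z' := by
        intro z _
        rw [hW', Finset.mul_sum, Finset.mul_sum, ← Finset.sum_sub_distrib]
        exact Finset.sum_congr rfl fun z' _ => by ring
      rw [Finset.sum_congr rfl h3, Finset.sum_sub_distrib, ← Finset.sum_mul, ← Finset.sum_mul]
    rw [h2]
    field_simp
  have h2 : |(∑ z ∈ B, w z * F z) / W - (∑ z ∈ B', w' z * F z) / W'| ≤ √M := by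
    rw [h1, abs_div, abs_of_pos (mul_pos hB hB'), div_le_iff₀ (mul_pos hB hB')]
    calc |∑ z ∈ B, ∑ z' ∈ B', w z * w' z' * (F z - F z')|
        ≤ ∑ z ∈ B, |∑ z' ∈ B', w z * w' z' * (F z - F z')| := Finset.abs_sum_le_sum_abs _ _
      _ ≤ ∑ z ∈ B, ∑ z' ∈ B', |w z * w' z' * (F z - F z')| :=
          Finset.sum_le_sum fun z _ => Finset.abs_sum_le_sum_abs _ _
      _ ≤ ∑ z ∈ B, ∑ z' ∈ B', w z * w' z' * √M := by
          refine Finset.sum_le_sum fun z hz => Finset.sum_le_sum fun z' hz' => ?_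
          rw [abs_mul, abs_of_nonneg (mul_nonneg (hw z) (hw' z'))]
          exact hd z hz z' hz'
      _ = √M * (W * W') := by
          have : ∀ z ∈ B, ∑ z' ∈ B', w z * w' z' * √M = w z * (W' * √M) := by
            intro z _
            rw [hW', Finset.sum_mul, Finset.mul_sum]
            exact Finset.sum_congr rfl fun z' _ => by ring
          rw [Finset.sum_congr rfl this, ← Finset.sum_mul]
          ring
  rw [← sq_abs]
  calc _ ≤ (√M) ^ 2 := pow_le_pow_left₀ (abs_nonneg _) h2 2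
    _ = M := Real.sq_sqrt hM0

/-- The cocycle property of the backward evolution. -/
theorem bw_coc (e : ℕ → V × V) (ω : ℕ → Bool) (A : Finset V) (δ : ℝ) (F : V → ℝ) {a n : ℕ}
    (h : a ≤ n) : ∀ j ≤ a, bw e ω A δ n F (n - a + j) =
      bw e ω A δ a (bw e ω A δ n F (n - a)) j := by
  intro j
  induction j with
  | zero => intro _; rfl
  | succ j ih =>
    intro hj
    have h1 : n - 1 - (n - a + j) = a - 1 - j := by omega
    change Mx e ω A δ (n - 1 - (n - a + j)) *ᵥ bw e ω A δ n F (n - a + j) =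
      Mx e ω A δ (a - 1 - j) *ᵥ bw e ω A δ a (bw e ω A δ n F (n - a)) j
    rw [h1, ih (by omega)]

theorem dsp_coc (e : ℕ → V × V) (ω : ℕ → Bool) (A : Finset V) (δ : ℝ) (F : V → ℝ) {a n : ℕ}
    (h : a ≤ n) (j : ℕ) (hj : j < a) : dsp e ω A δ n F (n - a + j) =
      dsp e ω A δ a (bw e ω A δ n F (n - a)) j := by
  unfold dsp
  have h1 : n - 1 - (n - a + j) = a - 1 - j := by omega
  rw [h1, bw_coc e ω A δ F h j hj.le]

theorem dsp_nonneg (e : ℕ → V × V) (ω : ℕ → Bool) (A : Finset V) (δ : ℝ) (n : ℕ) (F : V → ℝ)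
    (j : ℕ) : 0 ≤ dsp e ω A δ n F j := by
  unfold dsp
  split_ifs
  · exact le_rfl
  · exact sq_nonneg _

end gen

theorem sum_range_mul' (a m : ℕ) (h : ℕ → ℝ) :
    ∑ t ∈ range (a * m), h t = ∑ s ∈ range a, ∑ j ∈ range m, h (s * m + j) := by
  induction a with
  | zero => simp
  | succ a ih => rw [Nat.succ_mul, Finset.sum_range_add, Finset.sum_range_succ, ih]

section torus

variable {d L : ℕ} [NeZero L]

omit [NeZero L] in
/-- Particles of a ball without moves stay where they are. -/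
theorem stay (e : ℕ → (Fin d → ZMod L) × (Fin d → ZMod L)) (ω : ℕ → Bool)
    (A B : Finset (Fin d → ZMod L)) (M : ℕ)
    (hmove : ∀ k < M, ω k = true → tch e ω A k → (e k).1 ∉ B ∧ (e k).2 ∉ B) :
    ∀ j ≤ M, ∀ a ∈ A, a ∈ B → gp e ω j a = a := by
  intro j
  induction j with
  | zero =>
    intro _ a _ _
    rfl
  | succ j ih =>
    intro hj a ha haB
    have h1 : gp e ω (j + 1) a = if ω j then swap (e j).1 (e j).2 (gp e ω j a)
        else gp e ω j a := by
      change (if ω j then swap (e j).1 (e j).2 * gp e ω j else gp e ω j) a = _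
      split_ifs <;> rfl
    have h2 := ih (by omega) a ha haB
    rw [h1, h2]
    split_ifs with h3
    · by_cases h4 : a = (e j).1 ∨ a = (e j).2
      · exfalso
        obtain ⟨h5, h6⟩ := hmove j (by omega) h3 ⟨a, ha, by rw [h2]; exact h4⟩
        rcases h4 with h4 | h4
        · exact h5 (h4 ▸ haB)
        · exact h6 (h4 ▸ haB)
      · rw [not_or] at h4
        exact swap_apply_of_ne_of_ne h4.1 h4.2
    · rfl

end torus

end Q299.PL
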