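import Pool.Agent.Q299.PL.WINA
import Pool.Agent.Q299.PL.PTH
import Pool.Agent.Q299.PL.NRW
import Pool.Agent.Q38.L2.Dec

/-!
# Project LC2 (helper295), job WIN, part B: nice sweeps
-/

set_option autoImplicit false

namespace Q299.PL

open Finset Equiv Matrix Q292.LC Q295.PL Pool.Agent.Q151.LC

variable {d L : ℕ} [NeZero L]

/-- The dissipation of a sweep near `x`. -/
noncomputable def Sg (σ : ℕ → (Fin d → ZMod L) × Fin d) (ω : ℕ → Bool)
    (A : Finset (Fin d → ZMod L)) (δ : ℝ) (F : (Fin d → ZMod L) → ℝ) (x : Fin d → ZMod L)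
    (R s : ℕ) : ℝ :=
  ∑ j ∈ Finset.range (ms d L), (if (ed (σ (ms d L - 1 - j))).1 ∈ bal x R ∧
      (ed (σ (ms d L - 1 - j))).2 ∈ bal x R then
        dsp (ed ∘ σ) ω A δ ((s + 1) * ms d L) F j else 0)

theorem Sg_nonneg (σ : ℕ → (Fin d → ZMod L) × Fin d) (ω : ℕ → Bool)
    (A : Finset (Fin d → ZMod L)) (δ : ℝ) (F : (Fin d → ZMod L) → ℝ) (x : Fin d → ZMod L)
    (R s : ℕ) : 0 ≤ Sg σ ω A δ F x R s := by
  unfold Sg
  refine Finset.sum_nonneg fun j _ => ?_
  split_ifs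
  · exact dsp_nonneg _ _ _ _ _ _ _
  · exact le_rfl

/-- The variation of a function at the end of a nice sweep. -/
theorem nice_sweep (hd : 1 ≤ d) (hL : 3 ≤ L) {C1 : ℝ} (hC1 : 0 ≤ C1)
    (hP : ∀ (z : Fin d → ZMod L) (R : ℕ) (H : Finset (Fin d → ZMod L))
      (f : (Fin d → ZMod L) → ℝ),
      (∀ h ∈ H ∩ bal z (R + 3), ∀ h' ∈ H ∩ bal z (R + 3), h ≠ h' → 3 < td h h') →
      ∀ x ∈ bal z R \ H, ∀ y ∈ bal z R \ H,
      (f x - f y) ^ 2 ≤ C1 * (R + 1) * ∑ i : (Fin d → ZMod L) × Fin d,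
        (if (ed i).1 ∈ bal z (R + 3) \ H ∧ (ed i).2 ∈ bal z (R + 3) \ H then
          (f (ed i).1 - f (ed i).2) ^ 2 else 0))
    {σ : ℕ → (Fin d → ZMod L) × Fin d} (hσ : Per σ) (ω : ℕ → Bool)
    (A : Finset (Fin d → ZMod L)) {δ : ℝ} (h0 : 0 < δ) (h16 : 16 * d * δ ≤ 1)
    (F : (Fin d → ZMod L) → ℝ) (x : Fin d → ZMod L) (R s : ℕ)
    (hb1 : ¬ B1 σ ω A x (R + 3) s) (hb2 : ¬ B2 σ ω A x R (s + 1)) :
    ∀ z ∈ bal x R \ A.image (gp (ed ∘ σ) ω ((s + 1) * ms d L)),
    ∀ z' ∈ bal x R \ A.image (gp (ed ∘ σ) ω ((s + 1) * ms d L)),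
      (F z - F z') ^ 2 ≤ 3 * C1 * (R + 1) * Sg σ ω A δ F x (R + 4) s := by
  classical
  intro z hz z' hz'
  set e := ed ∘ σ with he
  set M := ms d L with hM
  set i := s * M with hi
  set A' := A.image (gp e ω i) with hA'
  set H := A.image (gp e ω ((s + 1) * M)) with hH
  have hsh : sh i e = e := by rw [hi, he]; exact sh_per hσ _
  have hiM : i + M = (s + 1) * M := by rw [hi]; ring
  have hmove : ∀ k < M, (sh i ω) k = true → tch e (sh i ω) A' k →
      (ed (σ k)).1 ∉ bal x (R + 3 + 1) ∧ (ed (σ k)).2 ∉ bal x (R + 3 + 1) := by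
    intro k hk ho ht
    have ht' : tch e ω A (i + k) := by
      rw [tch_shift_set, hsh]; exact ht
    have ho' : ω (i + k) = true := by
      unfold sh at ho
      rwa [Nat.add_comm] at ho
    have hσk : σ (i + k) = σ k := by
      rw [Nat.add_comm, hi]; exact sig_per hσ _ _
    by_contra hcon
    apply hb1
    refine ⟨k, hk, ho', ht', ?_⟩
    rw [← hM, ← hi, hσk]
    tauto
  have h1 := hP x R H F (by
    intro h hh h' hh' hne
    by_contra hcon
    apply hb2
    exact ⟨h, hh, h', hh', hne, by omega⟩) z hz z' hz'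
  have h2 := swb d L hd hL σ hσ (sh i ω) A' δ x (R + 3) F h0 h16 hmove
  have hsub : ∀ v ∈ bal x (R + 3) \ H, v ∈ bal x (R + 3) \ A' := by
    intro v hv
    rw [mem_sdiff] at hv ⊢
    refine ⟨hv.1, fun hvA => hv.2 ?_⟩
    have h3 := stay e (sh i ω) A' (bal x (R + 3 + 1)) M hmove M le_rfl v hvA
      (bal_mono x (by omega) hv.1)
    rw [hH, ← hiM]
    obtain ⟨a, ha, hav⟩ := mem_image.1 hvA
    rw [mem_image]
    refine ⟨a, ha, ?_⟩
    rw [Pool.Agent.Q68.LC.gp_add, hsh, Perm.mul_apply, hav]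
    exact h3
  have h3 : ∑ i : (Fin d → ZMod L) × Fin d,
      (if (ed i).1 ∈ bal x (R + 3) \ H ∧ (ed i).2 ∈ bal x (R + 3) \ H then
          (F (ed i).1 - F (ed i).2) ^ 2 else 0) ≤
      ∑ i : (Fin d → ZMod L) × Fin d,
      (if (ed i).1 ∈ bal x (R + 3) \ A' ∧ (ed i).2 ∈ bal x (R + 3) \ A' then
          (F (ed i).1 - F (ed i).2) ^ 2 else 0) := by
    refine Finset.sum_le_sum fun j _ => ?_
    by_cases h : (ed j).1 ∈ bal x (R + 3) \ H ∧ (ed j).2 ∈ bal x (R + 3) \ H
    · rw [if_pos h, if_pos ⟨hsub _ h.1, hsub _ h.2⟩]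
    · rw [if_neg h]
      split_ifs
      · exact sq_nonneg _
      · exact le_rfl
  have h4 : ∑ j ∈ Finset.range M, (if (ed (σ (M - 1 - j))).1 ∈ bal x (R + 3 + 1) ∧
      (ed (σ (M - 1 - j))).2 ∈ bal x (R + 3 + 1) then dsp e (sh i ω) A' δ M F j else 0) =
      Sg σ ω A δ F x (R + 4) s := by
    unfold Sg
    refine Finset.sum_congr rfl fun j hj => ?_
    have h5 := (bwb _ e ω A δ F).2.2.1 i M j (mem_range.1 hj)
    rw [hsh, hiM] at h5
    rw [← he, ← hM, h5]
  rw [← he, ← hM, h4] at h2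
  have hR0 : (0 : ℝ) ≤ R := Nat.cast_nonneg R
  calc (F z - F z') ^ 2 ≤ _ := h1
    _ ≤ C1 * (R + 1) * (3 * Sg σ ω A δ F x (R + 4) s) :=
        mul_le_mul_of_nonneg_left (h3.trans h2) (by positivity)
    _ = _ := by ring

open Classical in
/-- At least half of the sweeps are nice. -/
theorem nice_count {σ : ℕ → (Fin d → ZMod L) × Fin d} (hms : 0 < ms d L) (ω : ℕ → Bool)
    (A : Finset (Fin d → ZMod L)) (q u lam ρ κ₀ : ℕ) (x : Fin d → ZMod L) (R : ℕ)
    (hJall : ∀ a ∈ A, jumps (ed ∘ σ) ω 0 (u * (q * ms d L)) a ≤ ρ * u)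
    (hlam : (A ∩ bal x (R + 3 + ρ * u + 4)).card ≤ lam)
    (hpair : ∀ a ∈ A, ∀ b ∈ A, a ≠ b → ((Finset.range (u * q + 1)).filter fun s =>
      td (gp (ed ∘ σ) ω (s * ms d L) a) (gp (ed ∘ σ) ω (s * ms d L) b) ≤ 3).card ≤ κ₀ * q)
    (hk1 : 4 * lam ^ 2 * κ₀ ≤ u) (hk2 : 4 * lam * ρ ≤ q) :
    u * q ≤ 2 * ((range (u * q)).filter fun s =>
      ¬ B1 σ ω A x (R + 3) s ∧ ¬ B2 σ ω A x R (s + 1)).card := by
  set M := ms d L with hM
  set e := ed ∘ σ with he
  have hcnt := cnt_jump σ ω A x (u * (q * M)) (R + 3) (ρ * u) lam hJall hlam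
  have huN : u * (q * M) = (u * q) * M := by ring
  set bad1 : Finset ℕ := (range (u * q)).filter (fun s => B1 σ ω A x (R + 3) s) with hbad1
  set bad2 : Finset ℕ := (range (u * q)).filter (fun s => B2 σ ω A x R (s + 1)) with hbad2
  have hb1 : bad1.card ≤ lam * (ρ * u) := by
    refine le_trans ?_ hcnt
    have hsub : bad1 ⊆ ((range (u * (q * M))).filter (fun k => ω k = true ∧
      tch (ed ∘ σ) ω A k ∧ ((ed (σ k)).1 ∈ bal x (R + 3 + 1) ∨
        (ed (σ k)).2 ∈ bal x (R + 3 + 1)))).image (fun k => k / M) := by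
      intro s hs
      rw [hbad1, mem_filter, mem_range] at hs
      obtain ⟨hs1, k, hk, h1⟩ := hs
      rw [← hM] at hk h1
      rw [mem_image]
      refine ⟨s * M + k, ?_, ?_⟩
      · rw [mem_filter, mem_range]
        refine ⟨?_, h1⟩
        rw [huN]
        calc s * M + k < s * M + M := by omega
          _ = (s + 1) * M := by ring
          _ ≤ (u * q) * M := Nat.mul_le_mul_right _ (by omega)
      · rw [Nat.add_comm, Nat.add_mul_div_right _ _ hms, Nat.div_eq_of_lt hk, Nat.zero_add]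
    exact (card_le_card hsub).trans card_image_le
  have hb2 : bad2.card ≤ lam * lam * (κ₀ * q) := by
    set A' := A ∩ bal x (R + 3 + ρ * u + 4) with hA'
    have hsub : (bad2.image fun s => s + 1) ⊆
        ((A' ×ˢ A').filter (fun x => x.1 ≠ x.2)).biUnion (fun x => (range (u * q + 1)).filter
        (fun s => td (gp e ω (s * M) x.1) (gp e ω (s * M) x.2) ≤ 3)) := by
      intro s hs
      rw [mem_image] at hs
      obtain ⟨t, ht, rfl⟩ := hs
      rw [hbad2, mem_filter, mem_range] at ht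
      obtain ⟨hs1, h, hh, h', hh', hne, htd⟩ := ht
      rw [← hM, ← he] at hh hh'
      rw [mem_inter, mem_image, mem_bal] at hh hh'
      obtain ⟨⟨a, ha, rfl⟩, hha⟩ := hh
      obtain ⟨⟨b, hb, rfl⟩, hhb⟩ := hh'
      have hsle : (t + 1) * M ≤ u * (q * M) := by rw [huN]; exact Nat.mul_le_mul_right _ hs1
      have hin : ∀ c ∈ A, td x (gp e ω ((t + 1) * M) c) ≤ R + 3 → c ∈ A' := by
        intro c hc h1
        rw [hA', mem_inter, mem_bal]
        refine ⟨hc, ?_⟩
        have h2 := td_zero σ ω ((t + 1) * M) (u * (q * M)) (ρ * u) c hsle (hJall c hc)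
        rw [← he] at h2
        have h3 := td_tri x (gp e ω ((t + 1) * M) c) c
        omega
      rw [mem_biUnion]
      refine ⟨(a, b), ?_, ?_⟩
      · rw [mem_filter, mem_product]
        refine ⟨⟨hin a ha hha, hin b hb hhb⟩, ?_⟩
        intro hab
        simp only at hab
        exact hne (by rw [hab])
      · rw [mem_filter, mem_range]
        exact ⟨by omega, htd⟩
    have hci : (bad2.image fun s => s + 1).card = bad2.card :=
      card_image_of_injective _ (add_left_injective 1)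
    rw [← hci]
    refine (card_le_card hsub).trans ((card_biUnion_le_card_mul _ _ (κ₀ * q) ?_).trans ?_)
    · intro x hx
      rw [mem_filter, mem_product, hA', mem_inter, mem_inter] at hx
      exact hpair x.1 hx.1.1.1 x.2 hx.1.2.1 hx.2
    · apply Nat.mul_le_mul_right
      refine (card_filter_le _ _).trans ?_
      rw [card_product]
      exact Nat.mul_le_mul hlam hlam
  set nice := ((range (u * q)).filter fun s =>
      ¬ B1 σ ω A x (R + 3) s ∧ ¬ B2 σ ω A x R (s + 1)) with hnice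
  have h1 : (range (u * q)).card ≤ nice.card + (bad1.card + bad2.card) := by
    have h2 : range (u * q) ⊆ nice ∪ (bad1 ∪ bad2) := by
      intro t ht
      rw [mem_union, mem_union, hnice, hbad1, hbad2, mem_filter, mem_filter, mem_filter]
      tauto
    refine (card_le_card h2).trans ((card_union_le _ _).trans ?_)
    exact Nat.add_le_add_left (card_union_le _ _) _
  rw [card_range] at h1
  have h3 : 4 * (lam * (ρ * u)) ≤ q * u := by
    calc 4 * (lam * (ρ * u)) = (4 * lam * ρ) * u := by ring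
      _ ≤ q * u := Nat.mul_le_mul_right _ hk2
  have h4 : 4 * (lam * lam * (κ₀ * q)) ≤ u * q := by
    calc 4 * (lam * lam * (κ₀ * q)) = (4 * lam ^ 2 * κ₀) * q := by ring
      _ ≤ u * q := Nat.mul_le_mul_right _ hk1
  rw [Nat.mul_comm q u] at h3
  omega

/-- A sum over the sites near a sparse set. -/
theorem sum_ex {A : Finset (Fin d → ZMod L)} {m : ℕ} {y : (Fin d → ZMod L) → (Fin d → ZMod L)}
    (hy : Ex A m y) (g : (Fin d → ZMod L) → ℝ) (hg : ∀ x, 0 ≤ g x) :
    ∑ x, g (y x) ≤ ((2 * m + 1 : ℕ) : ℝ) ^ d * ∑ x, g x := by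
  have h2 : ∑ x, g (y x) = ∑ p, ∑ x, (if y x = p then g p else 0) := by
    rw [Finset.sum_comm]
    refine Finset.sum_congr rfl fun x _ => ?_
    rw [Finset.sum_ite_eq]
    simp
  rw [h2, Finset.mul_sum]
  refine Finset.sum_le_sum fun p _ => ?_
  rw [← Finset.sum_filter, Finset.sum_const, nsmul_eq_mul]
  apply mul_le_mul_of_nonneg_right _ (hg p)
  have h3 : (univ.filter fun x => y x = p) ⊆ bal p m := by
    intro x hx
    rw [mem_filter] at hx
    rw [mem_bal, td_comm, ← hx.2]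
    exact (hy x).2.1
  have h4 := (card_le_card h3).trans (card_bal_le p m)
  exact_mod_cast h4

end Q299.PL
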